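import Mathlib

set_option autoImplicit false

namespace Pool.Agent.Helper979.HexLat

/-- the six support functionals of the triangular lattice -/
def g : Fin 6 → ℤ × ℤ → ℤ
  | 0, s => s.1 + s.2
  | 1, s => s.2
  | 2, s => -s.1
  | 3, s => -s.1 - s.2
  | 4, s => -s.2
  | 5, s => s.1

theorem g_rel (k : Fin 6) (s : ℤ × ℤ) : g (k + 1) s + g (k - 1) s = g k s := by
  fin_cases k
  · show s.2 + s.1 = s.1 + s.2
    ring
  · show -s.1 + (s.1 + s.2) = s.2
    ring
  · show (-s.1 - s.2) + s.2 = -s.1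
    ring
  · show -s.2 + -s.1 = -s.1 - s.2
    ring
  · show s.1 + (-s.1 - s.2) = -s.2
    ring
  · show (s.1 + s.2) + -s.2 = s.1
    ring

theorem g_sum (s : ℤ × ℤ) : ∑ k, g k s = 0 := by
  simp only [Fin.sum_univ_six, g]
  ring

theorem g_inj (k : Fin 6) (s t : ℤ × ℤ) (h1 : g k s = g k t) (h2 : g (k + 1) s = g (k + 1) t) :
    s = t := by
  obtain ⟨a, b⟩ := s
  obtain ⟨c, d⟩ := t
  fin_cases k <;> simp [g] at h1 h2 <;> (apply Prod.ext <;> simp <;> linarith)

/-- extremal data of a finite set of lattice points -/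
structure Data (T : Finset (ℤ × ℤ)) (M A B : Fin 6 → ℤ) : Prop where
  le : ∀ k, ∀ s ∈ T, g k s ≤ M k
  ex : ∀ k, ∃ s ∈ T, g k s = M k
  leA : ∀ k, ∀ s ∈ T, g k s = M k → g (k + 1) s ≤ A k
  exA : ∀ k, ∃ s ∈ T, g k s = M k ∧ g (k + 1) s = A k
  leB : ∀ k, ∀ s ∈ T, g (k + 1) s = M (k + 1) → g k s ≤ B k
  exB : ∀ k, ∃ s ∈ T, g (k + 1) s = M (k + 1) ∧ g k s = B k

theorem exists_data (T : Finset (ℤ × ℤ)) (hT : T.Nonempty) : ∃ M A B, Data T M A B := by
  classical
  have h1 : ∀ k : Fin 6, ∃ s ∈ T, ∀ t ∈ T, g k t ≤ g k s := fun k =>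
    T.exists_max_image (g k) hT
  choose p hp hp' using h1
  have h2 : ∀ k : Fin 6, ∃ s ∈ T.filter (fun s => g k s = g k (p k)),
      ∀ t ∈ T.filter (fun s => g k s = g k (p k)), g (k + 1) t ≤ g (k + 1) s := fun k =>
    (T.filter (fun s => g k s = g k (p k))).exists_max_image (g (k + 1))
      ⟨p k, by simp [hp k]⟩
  choose q hq hq' using h2
  have h3 : ∀ k : Fin 6, ∃ s ∈ T.filter (fun s => g (k + 1) s = g (k + 1) (p (k + 1))),
      ∀ t ∈ T.filter (fun s => g (k + 1) s = g (k + 1) (p (k + 1))), g k t ≤ g k s := fun k =>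
    (T.filter (fun s => g (k + 1) s = g (k + 1) (p (k + 1)))).exists_max_image (g k)
      ⟨p (k + 1), by simp [hp (k + 1)]⟩
  choose r hr hr' using h3
  refine ⟨fun k => g k (p k), fun k => g (k + 1) (q k), fun k => g k (r k), ?_⟩
  constructor
  · intro k s hs; exact hp' k s hs
  · intro k; exact ⟨p k, hp k, rfl⟩
  · intro k s hs h
    exact hq' k s (by simp [hs, h])
  · intro k
    have := hq k
    simp only [Finset.mem_filter] at this
    exact ⟨q k, this.1, this.2, rfl⟩
  · intro k s hs h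
    exact hr' k s (by simp [hs, h])
  · intro k
    have := hr k
    simp only [Finset.mem_filter] at this
    exact ⟨r k, this.1, this.2, rfl⟩

/-- runs of a proper subset of the cyclic six -/
theorem runs (a : Fin 6 → Prop) [DecidablePred a] (h : ∃ k, a k) (h' : ¬ ∀ k, a k) :
    (1 : ℤ) ≤ (∑ k, if a k then (1 : ℤ) else 0) - ∑ k, if (a k ∧ a (k + 1)) then (1 : ℤ) else 0 := by
  simp only [Fin.sum_univ_six]
  have e1 : (0 : Fin 6) + 1 = 1 := rfl
  have e2 : (1 : Fin 6) + 1 = 2 := rfl
  have e3 : (2 : Fin 6) + 1 = 3 := rfl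
  have e4 : (3 : Fin 6) + 1 = 4 := rfl
  have e5 : (4 : Fin 6) + 1 = 5 := rfl
  have e6 : (5 : Fin 6) + 1 = 0 := rfl
  rw [e1, e2, e3, e4, e5, e6]
  by_cases h0 : a 0 <;> by_cases h1 : a 1 <;> by_cases h2 : a 2 <;> by_cases h3 : a 3 <;>
    by_cases h4 : a 4 <;> by_cases h5 : a 5 <;> simp [h0, h1, h2, h3, h4, h5]
  all_goals first
    | (exfalso; apply h'; intro k; fin_cases k <;> assumption)
    | (exfalso; obtain ⟨k, hk⟩ := h; revert hk; fin_cases k <;> simp_all)

/-- indicator that corner `k` is cut -/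
noncomputable def cut (M A : Fin 6 → ℤ) (k : Fin 6) : ℤ := if A k = M (k + 1) then 0 else 1

theorem cut_facts {T : Finset (ℤ × ℤ)} {M A B : Fin 6 → ℤ} (D : Data T M A B) (k : Fin 6) :
    (cut M A k = 0 ∧ A k = M (k + 1) ∧ B k = M k) ∨
    (cut M A k = 1 ∧ A k + 1 ≤ M (k + 1) ∧ B k + 1 ≤ M k) := by
  obtain ⟨s, hs, h1, h2⟩ := D.exA k
  obtain ⟨t, ht, h3, h4⟩ := D.exB k
  have hA : A k ≤ M (k + 1) := by rw [← h2]; exact D.le (k + 1) s hs
  have hB : B k ≤ M k := by rw [← h4]; exact D.le k t ht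
  unfold cut
  by_cases h : A k = M (k + 1)
  · left
    refine ⟨by simp [h], h, le_antisymm hB ?_⟩
    rw [← h1]
    exact D.leB k s hs (by rw [h2, h])
  · right
    refine ⟨by simp [h], by omega, ?_⟩
    by_contra hcon
    have : B k = M k := by omega
    apply h
    have := D.leA k t ht (by rw [h4, this])
    omega

theorem card_side {T : Finset (ℤ × ℤ)} {M A B : Fin 6 → ℤ} (D : Data T M A B) (k : Fin 6) :
    ((T.filter (fun s => g k s = M k)).card : ℤ) ≤ A k + B (k - 1) - M k + 1 := by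
  have hk : k - 1 + 1 = k := sub_add_cancel k 1
  have hsub : (T.filter (fun s => g k s = M k)).card ≤
      (Finset.Icc (M k - B (k - 1)) (A k)).card := by
    apply Finset.card_le_card_of_injOn (fun s => g (k + 1) s)
    · intro s hs
      simp only [Finset.coe_filter, Set.mem_ofPred_eq] at hs
      simp only [Finset.coe_Icc, Set.mem_Icc]
      constructor
      · have h1 := D.leB (k - 1) s hs.1 (by rw [hk]; exact hs.2)
        have h2 := g_rel k s
        have h3 := hs.2
        linarith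
      · exact D.leA k s hs.1 hs.2
    · intro s hs t ht hst
      simp only [Finset.coe_filter, Set.mem_ofPred_eq] at hs ht
      exact g_inj k s t (by rw [hs.2, ht.2]) hst
  obtain ⟨s, hs, h1, h2⟩ := D.exA k
  have h3 := D.leB (k - 1) s hs (by rw [hk]; exact h1)
  have h4 := g_rel k s
  rw [Int.card_Icc] at hsub
  have h5 : 0 ≤ A k + 1 - (M k - B (k - 1)) := by linarith
  have h6 : ((A k + 1 - (M k - B (k - 1))).toNat : ℤ) = A k + 1 - (M k - B (k - 1)) :=
    Int.toNat_of_nonneg h5
  have : ((T.filter (fun s => g k s = M k)).card : ℤ) ≤ ((A k + 1 - (M k - B (k - 1))).toNat : ℤ) := by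
    exact_mod_cast hsub
  linarith

theorem card_corner {T : Finset (ℤ × ℤ)} {M A B : Fin 6 → ℤ} (D : Data T M A B) (k : Fin 6) :
    ((T.filter (fun s => g k s = M k ∧ g (k + 1) s = M (k + 1))).card : ℤ) = 1 - cut M A k := by
  rcases cut_facts D k with ⟨h1, h2, h3⟩ | ⟨h1, h2, h3⟩
  · rw [h1]
    obtain ⟨s, hs, h4, h5⟩ := D.exA k
    have : T.filter (fun s => g k s = M k ∧ g (k + 1) s = M (k + 1)) = {s} := by
      ext t
      simp only [Finset.mem_filter, Finset.mem_singleton]
      constructor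
      · rintro ⟨_, h6, h7⟩
        exact g_inj k t s (by rw [h6, h4]) (by rw [h7, h5, h2])
      · rintro rfl
        exact ⟨hs, h4, by rw [h5, h2]⟩
    rw [this]; simp
  · rw [h1]
    have : T.filter (fun s => g k s = M k ∧ g (k + 1) s = M (k + 1)) = ∅ := by
      apply Finset.filter_eq_empty_iff.mpr
      rintro t ht ⟨h6, h7⟩
      have := D.leA k t ht h6
      omega
    rw [this]; simp

/-- boundary count -/
theorem card_bd {T : Finset (ℤ × ℤ)} {M A B : Fin 6 → ℤ} (D : Data T M A B) (hb : ∑ k, M k ≠ 0) :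
    ((T.filter (fun s => ∃ k, g k s = M k)).card : ℤ) ≤
      ∑ k, M k - ∑ k, ((M (k + 1) - A k) + (M k - B k) - cut M A k) := by
  classical
  have h1 : ((T.filter (fun s => ∃ k, g k s = M k)).card : ℤ) ≤
      ∑ s ∈ T, ((∑ k, if g k s = M k then (1 : ℤ) else 0) -
        ∑ k, if (g k s = M k ∧ g (k + 1) s = M (k + 1)) then (1 : ℤ) else 0) := by
    rw [Finset.card_filter]
    push_cast
    apply Finset.sum_le_sum
    intro s hs
    by_cases h : ∃ k, g k s = M k
    · simp only [h, if_true]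
      apply runs (fun k => g k s = M k) h
      intro hall
      apply hb
      rw [← g_sum s]
      exact Finset.sum_congr rfl (fun k _ => (hall k).symm)
    · simp only [h, if_false]
      have h' : ∀ k, ¬ g k s = M k := fun k hk => h ⟨k, hk⟩
      simp [h']
  have h2 : ∑ s ∈ T, ((∑ k, if g k s = M k then (1 : ℤ) else 0) -
        ∑ k, if (g k s = M k ∧ g (k + 1) s = M (k + 1)) then (1 : ℤ) else 0)
      = ∑ k, ((T.filter (fun s => g k s = M k)).card : ℤ) -
        ∑ k, ((T.filter (fun s => g k s = M k ∧ g (k + 1) s = M (k + 1))).card : ℤ) := by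
    rw [Finset.sum_sub_distrib, Finset.sum_comm, Finset.sum_comm (s := T)]
    congr 1
    · apply Finset.sum_congr rfl
      intro k _
      rw [Finset.card_filter]; push_cast; rfl
    · apply Finset.sum_congr rfl
      intro k _
      rw [Finset.card_filter]; push_cast; rfl
  rw [h2] at h1
  have h3 : ∑ k, ((T.filter (fun s => g k s = M k)).card : ℤ) ≤
      ∑ k, (A k + B (k - 1) - M k + 1) := Finset.sum_le_sum (fun k _ => card_side D k)
  have h4 : ∑ k, ((T.filter (fun s => g k s = M k ∧ g (k + 1) s = M (k + 1))).card : ℤ)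
      = ∑ k, (1 - cut M A k) := Finset.sum_congr rfl (fun k _ => card_corner D k)
  rw [h4] at h1
  have h5 : ∑ k : Fin 6, (A k + B (k - 1) - M k + 1) - ∑ k : Fin 6, (1 - cut M A k) =
      ∑ k, M k - ∑ k, ((M (k + 1) - A k) + (M k - B k) - cut M A k) := by
    simp only [Fin.sum_univ_six]
    have e1 : (0 : Fin 6) + 1 = 1 := rfl
    have e2 : (1 : Fin 6) + 1 = 2 := rfl
    have e3 : (2 : Fin 6) + 1 = 3 := rfl
    have e4 : (3 : Fin 6) + 1 = 4 := rfl
    have e5 : (4 : Fin 6) + 1 = 5 := rfl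
    have e6 : (5 : Fin 6) + 1 = 0 := rfl
    have f1 : (0 : Fin 6) - 1 = 5 := rfl
    have f2 : (1 : Fin 6) - 1 = 0 := rfl
    have f3 : (2 : Fin 6) - 1 = 1 := rfl
    have f4 : (3 : Fin 6) - 1 = 2 := rfl
    have f5 : (4 : Fin 6) - 1 = 3 := rfl
    have f6 : (5 : Fin 6) - 1 = 4 := rfl
    rw [e1, e2, e3, e4, e5, e6, f1, f2, f3, f4, f5, f6]
    ring
  linarith

/-- maximal number of points for a given total width -/
def F : ℕ → ℕ
  | 0 => 1
  | 1 => 1
  | 2 => 2
  | 3 => 3
  | 4 => 4
  | 5 => 5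
  | (n + 6) => (n + 6) + F n

theorem F_succ : ∀ n : ℕ, F n ≤ F (n + 1)
  | 0 => by simp [F]
  | 1 => by simp [F]
  | 2 => by simp [F]
  | 3 => by simp [F]
  | 4 => by simp [F]
  | 5 => by simp [F]
  | (n + 6) => by
      have := F_succ n
      show (n + 6) + F n ≤ (n + 1 + 6) + F (n + 1)
      omega

theorem F_mono : Monotone F := monotone_nat_of_le_succ F_succ

theorem le_F (n : ℕ) : n ≤ F n := by
  rcases Nat.lt_or_ge n 6 with h | h
  · interval_cases n <;> simp [F]
  · obtain ⟨m, rfl⟩ : ∃ m, n = m + 6 := ⟨n - 6, by omega⟩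
    show m + 6 ≤ (m + 6) + F m
    omega

theorem sum_M_nonneg {T : Finset (ℤ × ℤ)} {M A B : Fin 6 → ℤ} (D : Data T M A B) :
    0 ≤ ∑ k, M k := by
  obtain ⟨s, hs, _⟩ := D.ex 0
  rw [← g_sum s]
  exact Finset.sum_le_sum (fun k _ => D.le k s hs)

theorem term_nonneg {T : Finset (ℤ × ℤ)} {M A B : Fin 6 → ℤ} (D : Data T M A B) (k : Fin 6) :
    cut M A k ≤ (M (k + 1) - A k) + (M k - B k) - cut M A k ∧ 0 ≤ cut M A k ∧ cut M A k ≤ 1 := by
  rcases cut_facts D k with ⟨h1, h2, h3⟩ | ⟨h1, h2, h3⟩ <;> rw [h1] <;> refine ⟨?_, ?_, ?_⟩ <;> omega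

theorem card_le_F : ∀ n : ℕ, ∀ (T : Finset (ℤ × ℤ)) (M A B : Fin 6 → ℤ), Data T M A B →
    ∑ k, M k = n → T.card ≤ F n := by
  intro n
  induction n using Nat.strong_induction_on with
  | _ n ih =>
  intro T M A B D hn
  rcases Nat.eq_zero_or_pos n with h0 | hpos
  · subst h0
    have hall : ∀ s ∈ T, ∀ k, g k s = M k := by
      intro s hs k
      have h1 : ∑ k, (M k - g k s) = 0 := by
        rw [Finset.sum_sub_distrib, hn, g_sum]; simp
      have h2 := (Finset.sum_eq_zero_iff_of_nonneg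
        (fun k _ => sub_nonneg.mpr (D.le k s hs))).mp h1 k (Finset.mem_univ k)
      linarith
    have : T.card ≤ 1 := by
      apply Finset.card_le_one.mpr
      intro s hs t ht
      exact g_inj 0 s t (by rw [hall s hs, hall t ht]) (by rw [hall s hs, hall t ht])
    simpa [F] using this
  · classical
    have hb : ∑ k, M k ≠ 0 := by rw [hn]; exact_mod_cast hpos.ne'
    have h1 := card_bd D hb
    have h2 : 0 ≤ ∑ k, ((M (k + 1) - A k) + (M k - B k) - cut M A k) :=
      Finset.sum_nonneg (fun k _ => by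
        have := term_nonneg D k
        linarith [this.1, this.2.1])
    have h3 : T.card = (T.filter (fun s => ∃ k, g k s = M k)).card +
        (T.filter (fun s => ¬ ∃ k, g k s = M k)).card :=
      (Finset.card_filter_add_card_filter_not _).symm
    have h4 : (T.filter (fun s => ∃ k, g k s = M k)).card ≤ n := by
      have : ((T.filter (fun s => ∃ k, g k s = M k)).card : ℤ) ≤ n := by
        rw [← hn]; linarith
      exact_mod_cast this
    rcases (T.filter (fun s => ¬ ∃ k, g k s = M k)).eq_empty_or_nonempty with he | hne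
    · rw [h3, he]
      simp only [Finset.card_empty, add_zero]
      exact h4.trans (le_F n)
    · obtain ⟨M', A', B', D'⟩ := exists_data _ hne
      have hM' : ∀ k, M' k + 1 ≤ M k := by
        intro k
        obtain ⟨s, hs, h5⟩ := D'.ex k
        simp only [Finset.mem_filter, not_exists] at hs
        have := D.le k s hs.1
        have h6 := hs.2 k
        omega
      have hs' : ∑ k, M' k + 6 ≤ n := by
        rw [← hn]
        have : ∑ k : Fin 6, (M' k + 1) ≤ ∑ k, M k := Finset.sum_le_sum (fun k _ => hM' k)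
        rw [Finset.sum_add_distrib] at this
        simpa using this
      have h0' := sum_M_nonneg D'
      obtain ⟨n', hn'⟩ := Int.eq_ofNat_of_zero_le h0'
      have hlt : n' + 6 ≤ n := by rw [hn'] at hs'; exact_mod_cast hs'
      have h7 := ih n' (by omega) _ M' A' B' D' (by exact_mod_cast hn')
      obtain ⟨m, rfl⟩ : ∃ m, n = m + 6 := ⟨n - 6, by omega⟩
      have h8 : F n' ≤ F m := F_mono (by omega)
      rw [h3]
      show _ ≤ (m + 6) + F m
      omega

/-- refined count -/
theorem card_refined (n : ℕ) (T : Finset (ℤ × ℤ)) (M A B : Fin 6 → ℤ) (D : Data T M A B)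
    (hn : ∑ k, M k = (n : ℤ) + 6) :
    (T.card : ℤ) ≤ n + 6 + F n - ∑ k, ((M (k + 1) - A k) + (M k - B k) - cut M A k) := by
  classical
  have hb : ∑ k, M k ≠ 0 := by rw [hn]; positivity
  have h1 := card_bd D hb
  have h3 : T.card = (T.filter (fun s => ∃ k, g k s = M k)).card +
      (T.filter (fun s => ¬ ∃ k, g k s = M k)).card :=
    (Finset.card_filter_add_card_filter_not _).symm
  have h4 : (T.filter (fun s => ¬ ∃ k, g k s = M k)).card ≤ F n := by
    rcases (T.filter (fun s => ¬ ∃ k, g k s = M k)).eq_empty_or_nonempty with he | hne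
    · rw [he]; simp
    · obtain ⟨M', A', B', D'⟩ := exists_data _ hne
      have hM' : ∀ k, M' k + 1 ≤ M k := by
        intro k
        obtain ⟨s, hs, h5⟩ := D'.ex k
        simp only [Finset.mem_filter, not_exists] at hs
        have := D.le k s hs.1
        have h6 := hs.2 k
        omega
      have hs' : ∑ k, M' k ≤ n := by
        have : ∑ k : Fin 6, (M' k + 1) ≤ ∑ k, M k := Finset.sum_le_sum (fun k _ => hM' k)
        rw [Finset.sum_add_distrib, hn] at this
        simpa using this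
      have h0' := sum_M_nonneg D'
      obtain ⟨n', hn'⟩ := Int.eq_ofNat_of_zero_le h0'
      have hlt : n' ≤ n := by rw [hn'] at hs'; exact_mod_cast hs'
      exact (card_le_F n' _ M' A' B' D' (by exact_mod_cast hn')).trans (F_mono hlt)
  rw [hn] at h1
  have h5 : (T.card : ℤ) = ((T.filter (fun s => ∃ k, g k s = M k)).card : ℤ) +
      ((T.filter (fun s => ¬ ∃ k, g k s = M k)).card : ℤ) := by exact_mod_cast h3
  have h6 : ((T.filter (fun s => ¬ ∃ k, g k s = M k)).card : ℤ) ≤ F n := by exact_mod_cast h4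
  linarith

theorem classify {T : Finset (ℤ × ℤ)} {M A B : Fin 6 → ℤ} (D : Data T M A B)
    (hT : T.card = 54) :
    26 ≤ ∑ k, M k ∨
    (∑ k, M k = 25 ∧ ∑ k, ((M (k + 1) - A k) + (M k - B k)) ≤ 17) ∨
    (∑ k, M k = 24 ∧ ∑ k, ((M (k + 1) - A k) + (M k - B k)) ≤ 12) ∨
    (∑ k, M k = 23 ∧ ∑ k, ((M (k + 1) - A k) + (M k - B k)) ≤ 4) ∨
    (∑ k, M k = 24 ∧ ∃ j, ((M (j + 1) - A j = 1 ∧ M j - B j = 2) ∨
        (M (j + 1) - A j = 2 ∧ M j - B j = 1)) ∧
      ∀ k, k ≠ j → (M (k + 1) - A k) + (M k - B k) = 2) := by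
  have h0 := sum_M_nonneg D
  obtain ⟨b, hb⟩ := Int.eq_ofNat_of_zero_le h0
  have hF22 : F 22 = 52 := by decide
  have hF17 : F 17 = 33 := by decide
  have hF18 : F 18 = 37 := by decide
  have hF19 : F 19 = 40 := by decide
  by_cases hb26 : 26 ≤ b
  · left; rw [hb]; exact_mod_cast hb26
  have h22 : 22 < b := by
    by_contra hcon
    have h1 := card_le_F b T M A B D (by exact_mod_cast hb)
    have h2 : F b ≤ F 22 := F_mono (by omega)
    omega
  have key : ∀ S : ℤ, ∑ k, ((M (k + 1) - A k) + (M k - B k) - cut M A k) = S →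
      ∑ k, ((M (k + 1) - A k) + (M k - B k)) = S + ∑ k, cut M A k := by
    intro S hS
    rw [← hS, ← Finset.sum_add_distrib]
    exact Finset.sum_congr rfl (fun k _ => by ring)
  have hcut : ∑ k, cut M A k ≤ ∑ k, ((M (k + 1) - A k) + (M k - B k) - cut M A k) :=
    Finset.sum_le_sum (fun k _ => (term_nonneg D k).1)
  have hcut6 : ∑ k, cut M A k ≤ 6 := by
    have : ∑ k, cut M A k ≤ ∑ k : Fin 6, (1 : ℤ) := Finset.sum_le_sum (fun k _ => (term_nonneg D k).2.2)
    simpa using this
  have hk := key _ rfl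
  obtain rfl | rfl | rfl : b = 23 ∨ b = 24 ∨ b = 25 := by omega
  · have h1 := card_refined 17 T M A B D (by rw [hb]; norm_num)
    rw [hT, hF17] at h1
    right; right; right; left
    refine ⟨by rw [hb]; norm_num, ?_⟩
    push_cast at h1
    linarith
  · have h1 := card_refined 18 T M A B D (by rw [hb]; norm_num)
    rw [hT, hF18] at h1
    push_cast at h1
    by_cases ht : ∑ k, ((M (k + 1) - A k) + (M k - B k)) ≤ 12
    · right; right; left
      exact ⟨by rw [hb]; norm_num, ht⟩
    · right; right; right; right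
      refine ⟨by rw [hb]; norm_num, ?_⟩
      push Not at ht
      have hall : ∀ k, cut M A k = 1 := by
        have h6 : ∑ k, cut M A k = 6 := by linarith
        have h7 : ∑ k, (1 - cut M A k) = 0 := by
          rw [Finset.sum_sub_distrib, h6]; simp
        intro k
        have h8 := (Finset.sum_eq_zero_iff_of_nonneg
          (fun k _ => sub_nonneg.mpr (term_nonneg D k).2.2)).mp h7 k (Finset.mem_univ k)
        linarith
      have hc : ∀ k, A k + 1 ≤ M (k + 1) ∧ B k + 1 ≤ M k := by
        intro k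
        rcases cut_facts D k with ⟨h, _, _⟩ | ⟨_, h2, h3⟩
        · rw [hall k] at h; omega
        · exact ⟨h2, h3⟩
      have h6 : ∑ k, cut M A k = 6 := by simp [hall]
      have h13 : ∑ k, ((M (k + 1) - A k) + (M k - B k)) = 13 := by
        rw [h6] at hk; linarith
      have hge : ∀ k, 2 ≤ (M (k + 1) - A k) + (M k - B k) := fun k => by
        have := hc k; omega
      have hex : ∃ j, 3 ≤ (M (j + 1) - A j) + (M j - B j) := by
        by_contra hcon
        push Not at hcon
        have : ∑ k, ((M (k + 1) - A k) + (M k - B k)) ≤ ∑ k : Fin 6, (2 : ℤ) :=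
          Finset.sum_le_sum (fun k _ => by have := hcon k; omega)
        simp at this
        linarith
      obtain ⟨j, hj⟩ := hex
      have hsplit : ∑ k, ((M (k + 1) - A k) + (M k - B k) - 2) = 1 := by
        rw [Finset.sum_sub_distrib, h13]; simp
      have hj' : (M (j + 1) - A j) + (M j - B j) - 2 ≤ 1 := by
        rw [← hsplit]
        exact Finset.single_le_sum (f := fun k => (M (k + 1) - A k) + (M k - B k) - 2)
          (fun k _ => by have := hge k; omega) (Finset.mem_univ j)
      refine ⟨j, ?_, ?_⟩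
      · have := hc j
        omega
      · intro k hkj
        have hle : ((M (j + 1) - A j) + (M j - B j) - 2) + ((M (k + 1) - A k) + (M k - B k) - 2) ≤ 1 := by
          rw [← hsplit, ← Finset.sum_pair (f := fun k => (M (k + 1) - A k) + (M k - B k) - 2) (Ne.symm hkj)]
          exact Finset.sum_le_sum_of_subset_of_nonneg (Finset.subset_univ _)
            (fun k _ _ => by have := hge k; omega)
        have := hge k
        omega
  · have h1 := card_refined 19 T M A B D (by rw [hb]; norm_num)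
    rw [hT, hF19] at h1
    push_cast at h1
    right; left
    refine ⟨by rw [hb]; norm_num, ?_⟩
    linarith

end Pool.Agent.Helper979.HexLat
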