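import Mathlib
import Pool.Agent.Helper979.HexLat

set_option autoImplicit false

namespace Pool.Agent.Helper979.HexLat

open Real intervalIntegral MeasureTheory

/-- value of the lattice point `s` in direction `θ` -/
noncomputable def val (s : ℤ × ℤ) (θ : ℝ) : ℝ :=
  2 * (s.1 : ℝ) * cos θ + 2 * (s.2 : ℝ) * cos (θ - π / 3)

noncomputable def W (x y τ : ℝ) : ℝ := 2 * x * cos τ - 2 * y * cos (τ + π / 3)

theorem W_cont (x y : ℝ) : Continuous (W x y) := by
  unfold W; fun_prop

theorem W_int (x y a b : ℝ) : ∫ τ in a..b, W x y τ =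
    2 * x * (sin b - sin a) - 2 * y * (sin (b + π / 3) - sin (a + π / 3)) := by
  unfold W
  rw [intervalIntegral.integral_sub, intervalIntegral.integral_const_mul, intervalIntegral.integral_const_mul, integral_cos]
  · congr 2
    rw [intervalIntegral.integral_comp_add_right (fun x => cos x), integral_cos]
  · exact Continuous.intervalIntegrable (by fun_prop) _ _
  · exact Continuous.intervalIntegrable (by fun_prop) _ _

theorem W_step (k : Fin 6) (s : ℤ × ℤ) (τ : ℝ) :
    W (g k s) (g (k + 1) s) (τ + π / 3) = W (g (k + 1) s) (g (k + 1 + 1) s) τ := by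
  have h := g_rel (k + 1) s
  have hk : k + 1 - 1 = k := add_sub_cancel_right k 1
  rw [hk] at h
  have h' : (g (k + 1 + 1) s : ℝ) = g (k + 1) s - g k s := by
    have : g (k + 1 + 1) s = g (k + 1) s - g k s := by linarith
    rw [this]; push_cast; ring
  rw [h']
  unfold W
  have h2 : cos (τ + π / 3 + π / 3) = cos (τ + π / 3) - cos τ := by
    have e1 : cos (τ + π / 3 + π / 3) = cos (τ + π / 3) * cos (π / 3) - sin (τ + π / 3) * sin (π / 3) :=
      cos_add _ _
    have e2 : cos τ = cos (τ + π / 3) * cos (π / 3) + sin (τ + π / 3) * sin (π / 3) := by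
      rw [← cos_sub]; congr 1; ring
    rw [cos_pi_div_three] at e1 e2
    linarith
  rw [h2]; ring

theorem val_zero (s : ℤ × ℤ) (τ : ℝ) : val s τ = W (g 0 s) (g 1 s) τ := by
  unfold val W
  have e1 : cos (τ - π / 3) = cos τ * cos (π / 3) + sin τ * sin (π / 3) := cos_sub _ _
  have e2 : cos (τ + π / 3) = cos τ * cos (π / 3) - sin τ * sin (π / 3) := cos_add _ _
  rw [cos_pi_div_three] at e1 e2
  simp only [g]
  push_cast
  have : cos (τ - π / 3) = cos τ - cos (τ + π / 3) := by linarith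
  rw [this]; ring

theorem val_frame (k : Fin 6) (s : ℤ × ℤ) (τ : ℝ) :
    val s (τ + (k : ℕ) * (π / 3)) = W (g k s) (g (k + 1) s) τ := by
  have h0 : ∀ τ, val s τ = W (g 0 s) (g 1 s) τ := val_zero s
  have h1 : ∀ τ, val s (τ + π / 3) = W (g 1 s) (g 2 s) τ := fun τ => by
    rw [h0]; exact W_step 0 s τ
  have h2 : ∀ τ, val s (τ + 2 * (π / 3)) = W (g 2 s) (g 3 s) τ := fun τ => by
    have : τ + 2 * (π / 3) = (τ + π / 3) + π / 3 := by ring
    rw [this, h1]; exact W_step 1 s τ
  have h3 : ∀ τ, val s (τ + 3 * (π / 3)) = W (g 3 s) (g 4 s) τ := fun τ => by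
    have : τ + 3 * (π / 3) = (τ + π / 3) + 2 * (π / 3) := by ring
    rw [this, h2]; exact W_step 2 s τ
  have h4 : ∀ τ, val s (τ + 4 * (π / 3)) = W (g 4 s) (g 5 s) τ := fun τ => by
    have : τ + 4 * (π / 3) = (τ + π / 3) + 3 * (π / 3) := by ring
    rw [this, h3]; exact W_step 3 s τ
  have h5 : ∀ τ, val s (τ + 5 * (π / 3)) = W (g 5 s) (g 0 s) τ := fun τ => by
    have : τ + 5 * (π / 3) = (τ + π / 3) + 4 * (π / 3) := by ring
    rw [this, h4]; exact W_step 4 s τ
  fin_cases k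
  · simpa using h0 τ
  · simpa using h1 τ
  · simpa using h2 τ
  · simpa using h3 τ
  · simpa using h4 τ
  · simpa using h5 τ

theorem total (h : ℝ → ℝ) (hc : Continuous h) (hp : Function.Periodic h (2 * π)) (a : ℝ) :
    ∫ θ in (-π)..π, h θ = ∑ k : Fin 6, ∫ τ in a..(a + π / 3), h (τ + (k : ℕ) * (π / 3)) := by
  have h1 : ∫ θ in (-π)..π, h θ = ∫ θ in a..(a + 2 * π), h θ := by
    have := hp.intervalIntegral_add_eq (-π) a
    rw [← this]; congr 1; ring
  have hi : ∀ x y, IntervalIntegrable h volume x y := fun x y => hc.intervalIntegrable x y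
  rw [h1]
  simp only [Fin.sum_univ_six]
  simp only [intervalIntegral.integral_comp_add_right (fun x => h x)]
  norm_num
  rw [show a + π / 3 + π / 3 = a + 2 * (π / 3) by ring,
    show a + π / 3 + 2 * (π / 3) = a + 3 * (π / 3) by ring,
    show a + π / 3 + 3 * (π / 3) = a + 4 * (π / 3) by ring,
    show a + π / 3 + 4 * (π / 3) = a + 5 * (π / 3) by ring,
    show a + π / 3 + 5 * (π / 3) = a + 2 * π by ring]
  rw [integral_add_adjacent_intervals (hi _ _) (hi _ _),
    integral_add_adjacent_intervals (hi _ _) (hi _ _),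
    integral_add_adjacent_intervals (hi _ _) (hi _ _),
    integral_add_adjacent_intervals (hi _ _) (hi _ _),
    integral_add_adjacent_intervals (hi _ _) (hi _ _)]

section
variable {T : Finset (ℤ × ℤ)} {M A B : Fin 6 → ℤ} {h : ℝ → ℝ}

/-- six direction bound -/
theorem per_six (D : Data T M A B) (hc : Continuous h) (hp : Function.Periodic h (2 * π))
    (hd : ∀ s ∈ T, ∀ θ, val s θ ≤ h θ) :
    √3 * ((∑ k, M k : ℤ) : ℝ) ≤ ∫ θ in (-π)..π, h θ := by
  rw [total h hc hp 0]
  push_cast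
  rw [Finset.mul_sum]
  apply Finset.sum_le_sum
  intro k _
  obtain ⟨s, hs, h3, h4⟩ := D.exA k
  have hcc : Continuous (fun τ => h (τ + (k : ℕ) * (π / 3))) := by fun_prop
  have h0 : (0 : ℝ) ≤ 0 + π / 3 := by positivity
  have : ∫ τ in (0 : ℝ)..(0 + π / 3), W (M k) (A k) τ ≤
      ∫ τ in (0 : ℝ)..(0 + π / 3), h (τ + (k : ℕ) * (π / 3)) := by
    apply integral_mono_on h0 ((W_cont _ _).intervalIntegrable _ _)
      (hcc.intervalIntegrable _ _)
    intro τ _
    have := hd s hs (τ + (k : ℕ) * (π / 3))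
    rw [val_frame, h3, h4] at this
    exact this
  rw [W_int] at this
  have e1 : sin (0 + π / 3 + π / 3) = √3 / 2 := by
    rw [show 0 + π / 3 + π / 3 = π - π / 3 by ring, sin_pi_sub, sin_pi_div_three]
  rw [e1, zero_add, sin_zero, sin_pi_div_three] at this
  rw [zero_add]
  linarith

/-- sector bound with split at `σ` -/
theorem sector (D : Data T M A B) (hc : Continuous h)
    (hd : ∀ s ∈ T, ∀ θ, val s θ ≤ h θ) (k : Fin 6) (σ : ℝ) (h1 : π / 6 ≤ σ) (h2 : σ ≤ π / 2) :
    (2 * (M k : ℝ) * (sin σ - 1 / 2) - 2 * (A k : ℝ) * (sin (σ + π / 3) - 1)) +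
      (2 * (B k : ℝ) * (1 - sin σ) - 2 * (M (k + 1) : ℝ) * (1 / 2 - sin (σ + π / 3))) ≤
    ∫ τ in (π / 6)..(π / 6 + π / 3), h (τ + (k : ℕ) * (π / 3)) := by
  obtain ⟨s, hs, h3, h4⟩ := D.exA k
  obtain ⟨t, ht, h5, h6⟩ := D.exB k
  have hcc : Continuous (fun τ => h (τ + (k : ℕ) * (π / 3))) := by fun_prop
  have e0 : π / 6 + π / 3 = π / 2 := by ring
  rw [e0, ← integral_add_adjacent_intervals (hcc.intervalIntegrable (π / 6) σ)
    (hcc.intervalIntegrable σ (π / 2))]
  apply add_le_add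
  · have : ∫ τ in (π / 6)..σ, W (M k) (A k) τ ≤ ∫ τ in (π / 6)..σ, h (τ + (k : ℕ) * (π / 3)) := by
      apply integral_mono_on h1 ((W_cont _ _).intervalIntegrable _ _)
        (hcc.intervalIntegrable _ _)
      intro τ _
      have := hd s hs (τ + (k : ℕ) * (π / 3))
      rw [val_frame, h3, h4] at this
      exact this
    rw [W_int, e0, sin_pi_div_two, sin_pi_div_six] at this
    exact this
  · have : ∫ τ in σ..(π / 2), W (B k) (M (k + 1)) τ ≤
        ∫ τ in σ..(π / 2), h (τ + (k : ℕ) * (π / 3)) := by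
      apply integral_mono_on h2 ((W_cont _ _).intervalIntegrable _ _)
        (hcc.intervalIntegrable _ _)
      intro τ _
      have := hd t ht (τ + (k : ℕ) * (π / 3))
      rw [val_frame, h5, h6] at this
      exact this
    rw [W_int, sin_pi_div_two] at this
    have e1 : sin (π / 2 + π / 3) = 1 / 2 := by
      rw [show π / 2 + π / 3 = π - π / 6 by ring, sin_pi_sub, sin_pi_div_six]
    rw [e1] at this
    exact this

/-- middle split -/
theorem sector_mid (D : Data T M A B) (hc : Continuous h)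
    (hd : ∀ s ∈ T, ∀ θ, val s θ ≤ h θ) (k : Fin 6) :
    (M k : ℝ) + M (k + 1) - (2 - √3) * (((M (k + 1) - A k) + (M k - B k) : ℤ) : ℝ) ≤
    ∫ τ in (π / 6)..(π / 6 + π / 3), h (τ + (k : ℕ) * (π / 3)) := by
  have h1 := sector D hc hd k (π / 3) (by linarith [pi_pos]) (by linarith [pi_pos])
  have e1 : sin (π / 3 + π / 3) = √3 / 2 := by
    rw [show π / 3 + π / 3 = π - π / 3 by ring, sin_pi_sub, sin_pi_div_three]
  rw [e1, sin_pi_div_three] at h1
  refine le_trans (le_of_eq ?_) h1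
  push_cast
  ring

theorem sin75 : sin (5 * π / 12) = √2 / 4 * (1 + √3) := by
  rw [show 5 * π / 12 = π / 4 + π / 6 by ring, sin_add, sin_pi_div_four, cos_pi_div_four,
    sin_pi_div_six, cos_pi_div_six]
  ring

theorem sector_q1 (D : Data T M A B) (hc : Continuous h)
    (hd : ∀ s ∈ T, ∀ θ, val s θ ≤ h θ) (k : Fin 6) (h1 : M (k + 1) - A k = 1) (h2 : M k - B k = 2) :
    (M k : ℝ) + M (k + 1) - (6 - 2 * √2 - √2 * √3) ≤
    ∫ τ in (π / 6)..(π / 6 + π / 3), h (τ + (k : ℕ) * (π / 3)) := by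
  have h3 := sector D hc hd k (5 * π / 12) (by linarith [pi_pos]) (by linarith [pi_pos])
  have e1 : sin (5 * π / 12 + π / 3) = √2 / 2 := by
    rw [show 5 * π / 12 + π / 3 = π - π / 4 by ring, sin_pi_sub, sin_pi_div_four]
  rw [e1, sin75] at h3
  have hA : (A k : ℝ) = M (k + 1) - 1 := by
    have : A k = M (k + 1) - 1 := by linarith
    rw [this]; push_cast; ring
  have hB : (B k : ℝ) = M k - 2 := by
    have : B k = M k - 2 := by linarith
    rw [this]; push_cast; ring
  rw [hA, hB] at h3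
  refine le_trans (le_of_eq ?_) h3
  ring

theorem sector_q2 (D : Data T M A B) (hc : Continuous h)
    (hd : ∀ s ∈ T, ∀ θ, val s θ ≤ h θ) (k : Fin 6) (h1 : M (k + 1) - A k = 2) (h2 : M k - B k = 1) :
    (M k : ℝ) + M (k + 1) - (6 - 2 * √2 - √2 * √3) ≤
    ∫ τ in (π / 6)..(π / 6 + π / 3), h (τ + (k : ℕ) * (π / 3)) := by
  have h3 := sector D hc hd k (π / 4) (by linarith [pi_pos]) (by linarith [pi_pos])
  have e1 : sin (π / 4 + π / 3) = √2 / 4 * (1 + √3) := by
    rw [← sin75, ← sin_pi_sub]; congr 1; ring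
  rw [e1, sin_pi_div_four] at h3
  have hA : (A k : ℝ) = M (k + 1) - 2 := by
    have : A k = M (k + 1) - 2 := by linarith
    rw [this]; push_cast; ring
  have hB : (B k : ℝ) = M k - 1 := by
    have : B k = M k - 1 := by linarith
    rw [this]; push_cast; ring
  rw [hA, hB] at h3
  refine le_trans (le_of_eq ?_) h3
  ring

theorem per_mid (D : Data T M A B) (hc : Continuous h) (hp : Function.Periodic h (2 * π))
    (hd : ∀ s ∈ T, ∀ θ, val s θ ≤ h θ) :
    2 * ((∑ k, M k : ℤ) : ℝ) - (2 - √3) * ((∑ k, ((M (k + 1) - A k) + (M k - B k)) : ℤ) : ℝ) ≤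
      ∫ θ in (-π)..π, h θ := by
  rw [total h hc hp (π / 6)]
  have h1 := Finset.sum_le_sum (s := Finset.univ) (fun (k : Fin 6) _ => sector_mid D hc hd k)
  refine le_trans (le_of_eq ?_) h1
  simp only [Fin.sum_univ_six]
  have e1 : (0 : Fin 6) + 1 = 1 := rfl
  have e2 : (1 : Fin 6) + 1 = 2 := rfl
  have e3 : (2 : Fin 6) + 1 = 3 := rfl
  have e4 : (3 : Fin 6) + 1 = 4 := rfl
  have e5 : (4 : Fin 6) + 1 = 5 := rfl
  have e6 : (5 : Fin 6) + 1 = 0 := rfl
  rw [e1, e2, e3, e4, e5, e6]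
  push_cast
  ring

theorem per_special (D : Data T M A B) (hc : Continuous h) (hp : Function.Periodic h (2 * π))
    (hd : ∀ s ∈ T, ∀ θ, val s θ ≤ h θ) (hM : ∑ k, M k = 24) (j : Fin 6)
    (hj : (M (j + 1) - A j = 1 ∧ M j - B j = 2) ∨ (M (j + 1) - A j = 2 ∧ M j - B j = 1))
    (hk : ∀ k, k ≠ j → (M (k + 1) - A k) + (M k - B k) = 2) :
    22 + 10 * √3 + 2 * √2 + √2 * √3 ≤ ∫ θ in (-π)..π, h θ := by
  rw [total h hc hp (π / 6)]
  have h1 : ∀ k : Fin 6, (M k : ℝ) + M (k + 1) -
      (if k = j then (6 - 2 * √2 - √2 * √3) else 2 * (2 - √3)) ≤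
      ∫ τ in (π / 6)..(π / 6 + π / 3), h (τ + (k : ℕ) * (π / 3)) := by
    intro k
    by_cases hkj : k = j
    · subst hkj
      simp only [if_true]
      rcases hj with ⟨h2, h3⟩ | ⟨h2, h3⟩
      · exact sector_q1 D hc hd k h2 h3
      · exact sector_q2 D hc hd k h2 h3
    · simp only [hkj, if_false]
      have := sector_mid D hc hd k
      rw [hk k hkj] at this
      refine le_trans (le_of_eq ?_) this
      push_cast; ring
  have h2 := Finset.sum_le_sum (s := Finset.univ) (fun (k : Fin 6) _ => h1 k)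
  refine le_trans (le_of_eq ?_) h2
  have h3 : ∑ k : Fin 6, ((M k : ℝ) + M (k + 1)) = 48 := by
    have : ∑ k : Fin 6, (M k + M (k + 1)) = 48 := by
      rw [Finset.sum_add_distrib, hM]
      have : ∑ k : Fin 6, M (k + 1) = ∑ k, M k :=
        Equiv.sum_comp (Equiv.addRight (1 : Fin 6)) M
      rw [this, hM]; norm_num
    exact_mod_cast this
  rw [Finset.sum_sub_distrib, h3, Finset.sum_ite, Finset.sum_const, Finset.sum_const]
  have c1 : (Finset.univ.filter (fun k : Fin 6 => k = j)).card = 1 := by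
    simp [Finset.filter_eq']
  have c2 : (Finset.univ.filter (fun k : Fin 6 => ¬ k = j)).card = 5 := by
    have := Finset.card_filter_add_card_filter_not (s := (Finset.univ : Finset (Fin 6))) (fun k => k = j)
    rw [c1] at this
    simp at this
    omega
  rw [c1, c2]
  simp only [nsmul_eq_mul]
  push_cast
  ring

theorem per_lower (hT : T.card = 54) (hc : Continuous h) (hp : Function.Periodic h (2 * π))
    (hd : ∀ s ∈ T, ∀ θ, val s θ ≤ h θ) : 4459 / 100 ≤ ∫ θ in (-π)..π, h θ := by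
  have hne : T.Nonempty := by
    rw [← Finset.card_pos, hT]; norm_num
  obtain ⟨M, A, B, D⟩ := exists_data T hne
  have s3 : 1.732 ≤ √3 := by
    apply Real.le_sqrt_of_sq_le; norm_num
  have s3' : √3 ≤ 1.7321 := by
    rw [Real.sqrt_le_left (by norm_num)]; norm_num
  have s2 : 1.4142 ≤ √2 := by
    apply Real.le_sqrt_of_sq_le; norm_num
  rcases classify D hT with h1 | ⟨h1, h2⟩ | ⟨h1, h2⟩ | ⟨h1, h2⟩ | ⟨h1, j, h2, h3⟩
  · have h4 := per_six D hc hp hd
    have h5 : (26 : ℝ) ≤ ((∑ k, M k : ℤ) : ℝ) := by exact_mod_cast h1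
    nlinarith
  · have h4 := per_mid D hc hp hd
    have h5 : ((∑ k, ((M (k + 1) - A k) + (M k - B k)) : ℤ) : ℝ) ≤ 17 := by exact_mod_cast h2
    rw [h1] at h4
    push_cast at h4 h5
    nlinarith
  · have h4 := per_mid D hc hp hd
    have h5 : ((∑ k, ((M (k + 1) - A k) + (M k - B k)) : ℤ) : ℝ) ≤ 12 := by exact_mod_cast h2
    rw [h1] at h4
    push_cast at h4 h5
    nlinarith
  · have h4 := per_mid D hc hp hd
    have h5 : ((∑ k, ((M (k + 1) - A k) + (M k - B k)) : ℤ) : ℝ) ≤ 4 := by exact_mod_cast h2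
    rw [h1] at h4
    push_cast at h4 h5
    nlinarith
  · have h4 := per_special D hc hp hd h1 j h2 h3
    nlinarith

end

end Pool.Agent.Helper979.HexLat
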