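import Mathlib

set_option autoImplicit false

namespace Pool.Agent.Helper979.PolarArea

open Real MeasureTheory Set ENNReal

/-- inner integral -/
theorem inner_int (c : ℝ) (hc : 0 ≤ c) :
    ∫⁻ x in Ioc (0 : ℝ) c, ENNReal.ofReal x = ENNReal.ofReal (c ^ 2 / 2) := by
  rw [← ofReal_integral_eq_lintegral_ofReal]
  · congr 1
    rw [← intervalIntegral.integral_of_le hc, integral_id]
    ring
  · have : IntegrableOn (fun x : ℝ => x) (Ioc 0 c) volume :=
      (continuous_id.integrableOn_Icc).mono_set Ioc_subset_Icc_self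
    exact this
  · filter_upwards [ae_restrict_mem measurableSet_Ioc] with x hx using hx.1.le

theorem vol_eq (U : Set ℂ) (hU : MeasurableSet U) :
    volume U = ∫⁻ θ in Ioo (-π) π, ∫⁻ ρ in Ioi (0 : ℝ),
      ENNReal.ofReal ρ * U.indicator 1 (ρ * (cos θ + sin θ * Complex.I) : ℂ) := by
  rw [← lintegral_indicator_one hU, ← Complex.lintegral_comp_polarCoord_symm]
  have ht : polarCoord.target = Ioi (0 : ℝ) ×ˢ Ioo (-π) π := rfl
  rw [ht, Measure.volume_eq_prod, ← Measure.prod_restrict]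
  rw [lintegral_prod_symm]
  · simp only [Complex.polarCoord_symm_apply, smul_eq_mul]
  · apply Measurable.aemeasurable
    simp only [Complex.polarCoord_symm_apply, smul_eq_mul]
    apply Measurable.mul
    · fun_prop
    · apply Measurable.comp (g := U.indicator 1)
      · exact measurable_one.indicator hU
      · fun_prop

theorem outer_int (f : ℝ → ℝ) (hf : Continuous f) (h0 : ∀ θ, 0 ≤ f θ) :
    ∫⁻ θ in Ioo (-π) π, ENNReal.ofReal (f θ) = ENNReal.ofReal (∫ θ in (-π)..π, f θ) := by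
  rw [← ofReal_integral_eq_lintegral_ofReal]
  · congr 1
    rw [intervalIntegral.integral_of_le (by linarith [pi_pos]), integral_Ioc_eq_integral_Ioo]
  · exact (hf.integrableOn_Icc).mono_set Ioo_subset_Icc_self
  · filter_upwards with x using h0 x

theorem vol_le (U : Set ℂ) (hU : MeasurableSet U) (H : ℝ → ℝ) (hH : Continuous H)
    (h0 : ∀ θ, 0 ≤ H θ)
    (hs : ∀ ρ θ : ℝ, 0 < ρ → (ρ * (cos θ + sin θ * Complex.I) : ℂ) ∈ U → ρ ≤ H θ) :
    volume U ≤ ENNReal.ofReal (∫ θ in (-π)..π, (H θ) ^ 2 / 2) := by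
  rw [vol_eq U hU, ← outer_int _ (by fun_prop) (fun θ => by positivity)]
  apply lintegral_mono
  intro θ
  show _ ≤ ENNReal.ofReal (H θ ^ 2 / 2)
  rw [← inner_int (H θ) (h0 θ)]
  calc ∫⁻ ρ in Ioi (0 : ℝ), ENNReal.ofReal ρ * U.indicator 1 (ρ * (cos θ + sin θ * Complex.I) : ℂ)
      ≤ ∫⁻ ρ in Ioi (0 : ℝ), (Ioc (0 : ℝ) (H θ)).indicator (fun x => ENNReal.ofReal x) ρ := by
        apply setLIntegral_mono' measurableSet_Ioi
        intro ρ hρ
        by_cases hm : (ρ * (cos θ + sin θ * Complex.I) : ℂ) ∈ U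
        · have := hs ρ θ hρ hm
          rw [indicator_of_mem hm, indicator_of_mem (show ρ ∈ Ioc 0 (H θ) from ⟨hρ, this⟩)]
          simp
        · rw [indicator_of_notMem hm]; simp
    _ ≤ ∫⁻ ρ, (Ioc (0 : ℝ) (H θ)).indicator (fun x => ENNReal.ofReal x) ρ :=
        setLIntegral_le_lintegral _ _
    _ = ∫⁻ x in Ioc (0 : ℝ) (H θ), ENNReal.ofReal x := by
        rw [lintegral_indicator measurableSet_Ioc]

theorem le_vol (U : Set ℂ) (hU : MeasurableSet U) (H : ℝ → ℝ) (hH : Continuous H)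
    (h0 : ∀ θ, 0 ≤ H θ)
    (hs : ∀ ρ θ : ℝ, 0 < ρ → ρ ≤ H θ → (ρ * (cos θ + sin θ * Complex.I) : ℂ) ∈ U) :
    ENNReal.ofReal (∫ θ in (-π)..π, (H θ) ^ 2 / 2) ≤ volume U := by
  rw [vol_eq U hU, ← outer_int _ (by fun_prop) (fun θ => by positivity)]
  apply lintegral_mono
  intro θ
  show ENNReal.ofReal (H θ ^ 2 / 2) ≤ _
  rw [← inner_int (H θ) (h0 θ)]
  calc ∫⁻ x in Ioc (0 : ℝ) (H θ), ENNReal.ofReal x
      ≤ ∫⁻ ρ in Ioc (0 : ℝ) (H θ), ENNReal.ofReal ρ *
          U.indicator 1 (ρ * (cos θ + sin θ * Complex.I) : ℂ) := by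
        apply setLIntegral_mono' measurableSet_Ioc
        intro ρ hρ
        rw [indicator_of_mem (hs ρ θ hρ.1 hρ.2)]
        simp
    _ ≤ _ := lintegral_mono_set Ioc_subset_Ioi_self

end Pool.Agent.Helper979.PolarArea
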