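import Mathlib
import Pool.Agent.Helper979.HexPer
import Pool.Agent.Helper979.PolarArea

set_option autoImplicit false

namespace Pool.Agent.Helper979.Area

open Real MeasureTheory Set ENNReal Metric

/-- component of `z` in direction `θ` -/
noncomputable def dir (z : ℂ) (θ : ℝ) : ℝ := z.re * cos θ + z.im * sin θ

/-- support function of a finite family of points -/
noncomputable def hs {ι : Type} [Fintype ι] [Nonempty ι] (x : ι → ℂ) (θ : ℝ) : ℝ :=
  Finset.univ.sup' Finset.univ_nonempty (fun i => dir (x i) θ)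

/-- area of the union of disks -/
noncomputable def V {ι : Type} (x : ι → ℂ) (r : ℝ) : ℝ≥0∞ := volume (⋃ i, closedBall (x i) r)

section
variable {ι : Type} [Fintype ι] [Nonempty ι]

theorem dir_le (x : ι → ℂ) (θ : ℝ) (i : ι) : dir (x i) θ ≤ hs x θ :=
  Finset.le_sup' (fun i => dir (x i) θ) (Finset.mem_univ i)

theorem hs_ex (x : ι → ℂ) (θ : ℝ) : ∃ i, hs x θ = dir (x i) θ := by
  obtain ⟨i, _, hi⟩ := Finset.exists_mem_eq_sup' (Finset.univ_nonempty (α := ι))
    (fun i => dir (x i) θ)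
  exact ⟨i, hi⟩

theorem dir_cont (z : ℂ) : Continuous (dir z) := by unfold dir; fun_prop

theorem hs_cont (x : ι → ℂ) : Continuous (hs x) := by
  unfold hs
  exact Continuous.finset_sup'_apply _ (fun i _ => dir_cont (x i))

theorem dir_per (z : ℂ) (θ : ℝ) : dir z (θ + 2 * π) = dir z θ := by
  unfold dir; rw [cos_add_two_pi, sin_add_two_pi]

theorem hs_per (x : ι → ℂ) : Function.Periodic (hs x) (2 * π) := by
  intro θ; unfold hs; simp only [dir_per]

theorem sq_split (z : ℂ) (θ : ℝ) :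
    (dir z θ) ^ 2 + (z.re * sin θ - z.im * cos θ) ^ 2 = ‖z‖ ^ 2 := by
  unfold dir
  rw [← Complex.normSq_eq_norm_sq, Complex.normSq_apply]
  have := sin_sq_add_cos_sq θ
  nlinarith

theorem abs_dir_le (z : ℂ) (θ : ℝ) : |dir z θ| ≤ ‖z‖ := by
  apply abs_le_of_sq_le_sq _ (norm_nonneg z)
  nlinarith [sq_split z θ, sq_nonneg (z.re * sin θ - z.im * cos θ)]

theorem hs_abs_le (x : ι → ℂ) (R : ℝ) (hR : ∀ i, ‖x i‖ ≤ R) (θ : ℝ) : |hs x θ| ≤ R := by
  obtain ⟨i, hi⟩ := hs_ex x θ
  rw [hi]; exact (abs_dir_le _ _).trans (hR i)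

theorem norm_sq_polar (z : ℂ) (ρ θ : ℝ) :
    ‖(ρ * (cos θ + sin θ * Complex.I) : ℂ) - z‖ ^ 2 =
      (ρ - dir z θ) ^ 2 + (z.re * sin θ - z.im * cos θ) ^ 2 := by
  rw [← Complex.normSq_eq_norm_sq, Complex.normSq_apply]
  have h1 : ((ρ * (cos θ + sin θ * Complex.I) : ℂ) - z).re = ρ * cos θ - z.re := by
    simp [Complex.cos_ofReal_re, Complex.sin_ofReal_re, Complex.cos_ofReal_im, Complex.sin_ofReal_im]
  have h2 : ((ρ * (cos θ + sin θ * Complex.I) : ℂ) - z).im = ρ * sin θ - z.im := by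
    simp [Complex.cos_ofReal_re, Complex.sin_ofReal_re, Complex.cos_ofReal_im, Complex.sin_ofReal_im]
  rw [h1, h2]
  unfold dir
  have := sin_sq_add_cos_sq θ
  have h3 : cos θ ^ 2 = 1 - sin θ ^ 2 := by linarith
  ring_nf
  rw [h3]; ring

omit [Nonempty ι] in
theorem union_meas (x : ι → ℂ) (r : ℝ) : MeasurableSet (⋃ i, closedBall (x i) r) :=
  MeasurableSet.iUnion (fun _ => isClosed_closedBall.measurableSet)

/-- lower bound for the area -/
theorem V_lower (x : ι → ℂ) (R κ r : ℝ) (hR : ∀ i, ‖x i‖ ≤ R) (hκ : κ ^ 2 + R ^ 2 ≤ r ^ 2)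
    (hRκ : R ≤ κ) (hr : 0 ≤ r) :
    ENNReal.ofReal (π * κ ^ 2 + κ * ∫ θ in (-π)..π, hs x θ) ≤ V x r := by
  have hb : ∀ θ, -R ≤ hs x θ := fun θ => (abs_le.mp (hs_abs_le x R hR θ)).1
  have hR0 : 0 ≤ R := by
    obtain ⟨i⟩ := (inferInstance : Nonempty ι)
    exact (norm_nonneg _).trans (hR i)
  have h1 := PolarArea.le_vol (⋃ i, closedBall (x i) r) (union_meas x r) (fun θ => κ + hs x θ)
    (by have := hs_cont x; fun_prop) (fun θ => by have := hb θ; linarith) (by
      intro ρ θ hρ hle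
      obtain ⟨i, hi⟩ := hs_ex x θ
      rw [hi] at hle
      rw [mem_iUnion]
      refine ⟨i, ?_⟩
      rw [mem_closedBall, dist_eq_norm]
      apply le_of_sq_le_sq _ hr
      rw [norm_sq_polar]
      have h2 := sq_split (x i) θ
      have h3 : ‖x i‖ ^ 2 ≤ R ^ 2 := by
        have := hR i
        have := norm_nonneg (x i)
        nlinarith
      have h4 := (abs_le.mp ((abs_dir_le (x i) θ).trans (hR i))).2
      have h5 := (abs_le.mp ((abs_dir_le (x i) θ).trans (hR i))).1
      have h6 : (ρ - dir (x i) θ) ^ 2 ≤ κ ^ 2 := by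
        apply sq_le_sq'
        · linarith
        · linarith
      nlinarith [sq_nonneg (dir (x i) θ)])
  refine le_trans (ENNReal.ofReal_le_ofReal ?_) h1
  have hc := hs_cont x
  have h2 : ∫ θ in (-π)..π, (κ + hs x θ) ^ 2 / 2 ≥ ∫ θ in (-π)..π, (κ ^ 2 / 2 + κ * hs x θ) := by
    apply intervalIntegral.integral_mono_on (by linarith [pi_pos])
    · exact Continuous.intervalIntegrable (by fun_prop) _ _
    · exact Continuous.intervalIntegrable (by fun_prop) _ _
    · intro θ _
      nlinarith [sq_nonneg (hs x θ)]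
  have h3 : ∫ θ in (-π)..π, (κ ^ 2 / 2 + κ * hs x θ) = π * κ ^ 2 + κ * ∫ θ in (-π)..π, hs x θ := by
    rw [intervalIntegral.integral_add, intervalIntegral.integral_const,
      intervalIntegral.integral_const_mul]
    · simp only [smul_eq_mul]; ring
    · exact Continuous.intervalIntegrable (by fun_prop) _ _
    · exact Continuous.intervalIntegrable (by fun_prop) _ _
  rw [← h3]; exact h2

/-- upper bound for the area -/
theorem V_upper (x : ι → ℂ) (C r : ℝ) (hC : ∀ i, ‖x i‖ ≤ C) (hCr : C ≤ r) :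
    V x r ≤ ENNReal.ofReal (π * r ^ 2 + r * (∫ θ in (-π)..π, hs x θ) + π * C ^ 2) := by
  have hb : ∀ θ, |hs x θ| ≤ C := hs_abs_le x C hC
  have h1 := PolarArea.vol_le (⋃ i, closedBall (x i) r) (union_meas x r) (fun θ => r + hs x θ)
    (by have := hs_cont x; fun_prop) (fun θ => by have := (abs_le.mp (hb θ)).1; linarith) (by
      intro ρ θ hρ hmem
      rw [mem_iUnion] at hmem
      obtain ⟨i, hi⟩ := hmem
      rw [mem_closedBall, dist_eq_norm] at hi
      have h2 := norm_sq_polar (x i) ρ θ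
      have h3 := dir_le x θ i
      have h4 : (ρ - dir (x i) θ) ^ 2 ≤ r ^ 2 := by
        have : ‖(ρ * (cos θ + sin θ * Complex.I) : ℂ) - x i‖ ^ 2 ≤ r ^ 2 := by
          have := norm_nonneg ((ρ * (cos θ + sin θ * Complex.I) : ℂ) - x i)
          nlinarith
        nlinarith [sq_nonneg ((x i).re * sin θ - (x i).im * cos θ)]
      have h5 : ρ - dir (x i) θ ≤ r := by
        have hr : 0 ≤ r := (norm_nonneg _).trans hi
        exact le_of_sq_le_sq h4 hr
      show ρ ≤ r + hs x θ
      linarith)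
  refine le_trans h1 (ENNReal.ofReal_le_ofReal ?_)
  have hc := hs_cont x
  have h2 : ∫ θ in (-π)..π, (r + hs x θ) ^ 2 / 2 ≤
      ∫ θ in (-π)..π, (r ^ 2 / 2 + r * hs x θ + C ^ 2 / 2) := by
    apply intervalIntegral.integral_mono_on (by linarith [pi_pos])
    · exact Continuous.intervalIntegrable (by fun_prop) _ _
    · exact Continuous.intervalIntegrable (by fun_prop) _ _
    · intro θ _
      have := sq_le_sq' (abs_le.mp (hb θ)).1 (abs_le.mp (hb θ)).2
      nlinarith
  refine h2.trans (le_of_eq ?_)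
  rw [intervalIntegral.integral_add, intervalIntegral.integral_add,
    intervalIntegral.integral_const, intervalIntegral.integral_const,
    intervalIntegral.integral_const_mul]
  · simp only [smul_eq_mul]; ring
  · exact Continuous.intervalIntegrable (by fun_prop) _ _
  · exact Continuous.intervalIntegrable (by fun_prop) _ _
  · exact Continuous.intervalIntegrable (by fun_prop) _ _
  · exact Continuous.intervalIntegrable (by fun_prop) _ _

end

end Pool.Agent.Helper979.Area
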