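import Mathlib
import Pool.Agent.Helper979.Area

set_option autoImplicit false

namespace Pool.Agent.Helper979.Xconf

open Real MeasureTheory Set Metric
open Pool.Agent.Helper979.Area

/-- the 54 points, in units of `1/140`, coordinates `(a + b * sqrt 3, c + d * sqrt 3)` -/
def L : List (ℤ × ℤ × ℤ × ℤ) := [(-280,0,0,-560), (0,0,0,-560), (280,0,0,-560), (-700,0,0,-420), (-420,0,0,-420), (-140,0,0,-420), (140,0,0,-420), (420,0,0,-420), (700,0,0,-420), (-840,0,0,-280), (-560,0,0,-280), (-280,0,0,-280), (0,0,0,-280), (280,0,0,-280), (560,0,0,-280), (840,0,0,-280), (-700,0,0,-140), (-420,0,0,-140), (-140,0,0,-140), (140,0,0,-140), (420,0,0,-140), (700,0,0,-140), (980,0,0,-140), (-560,0,0,0), (-280,0,0,0), (0,0,0,0), (280,0,0,0), (560,0,0,0), (840,0,0,0), (-700,0,0,140), (-420,0,0,140), (-140,0,0,140), (140,0,0,140), (420,0,0,140), (700,0,0,140), (980,0,0,140), (-840,0,0,280), (-560,0,0,280), (-280,0,0,280), (0,0,0,280), (280,0,0,280),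 (560,0,0,280), (840,0,0,280), (-700,0,0,420), (-420,0,0,420), (-140,0,0,420), (140,0,0,420), (420,0,0,420), (700,0,0,420), (-280,0,0,560), (0,0,0,560), (280,0,0,560), (-789,-102,140,0), (-789,-102,-140,0)]

/-- exact sign test for `P + Q * sqrt 3` -/
def nn (P Q : ℤ) : Bool :=
  (decide (0 ≤ P) && decide (0 ≤ Q)) || (decide (0 ≤ P) && decide (3 * (Q * Q) ≤ P * P)) ||
    (decide (0 ≤ Q) && decide (P * P ≤ 3 * (Q * Q)))

theorem nn_sound (P Q : ℤ) (h : nn P Q = true) : (0 : ℝ) ≤ P + Q * √3 := by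
  have h3 : √3 * √3 = 3 := Real.mul_self_sqrt (by norm_num)
  have h30 : 0 ≤ √3 := Real.sqrt_nonneg 3
  simp only [nn, Bool.or_eq_true, Bool.and_eq_true, decide_eq_true_eq] at h
  rcases h with (⟨h1, h2⟩ | ⟨h1, h2⟩) | ⟨h1, h2⟩
  · have h1' : (0 : ℝ) ≤ P := by exact_mod_cast h1
    have h2' : (0 : ℝ) ≤ Q := by exact_mod_cast h2
    positivity
  · have h1' : (0 : ℝ) ≤ P := by exact_mod_cast h1
    have h2' : (3 : ℝ) * (Q * Q) ≤ P * P := by exact_mod_cast h2
    have h4 : |(Q : ℝ) * √3| ≤ P := by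
      apply abs_le_of_sq_le_sq _ h1'
      nlinarith
    linarith [(abs_le.mp h4).1]
  · have h1' : (0 : ℝ) ≤ Q := by exact_mod_cast h1
    have h2' : (P : ℝ) * P ≤ 3 * (Q * Q) := by exact_mod_cast h2
    have h4 : |(P : ℝ)| ≤ Q * √3 := by
      apply abs_le_of_sq_le_sq _ (by positivity)
      nlinarith
    linarith [(abs_le.mp h4).1]

theorem L_len : L.length = 54 := by decide

noncomputable def pt (q : ℤ × ℤ × ℤ × ℤ) : ℂ :=
  ⟨(q.1 + q.2.1 * √3) / 140, (q.2.2.1 + q.2.2.2 * √3) / 140⟩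

noncomputable def X (i : Fin 54) : ℂ := pt (L.get (i.cast L_len.symm))

/-- separation test -/
def sep (x y : ℤ × ℤ × ℤ × ℤ) : Bool :=
  nn ((x.1 - y.1) * (x.1 - y.1) + 3 * ((x.2.1 - y.2.1) * (x.2.1 - y.2.1)) +
      (x.2.2.1 - y.2.2.1) * (x.2.2.1 - y.2.2.1) +
      3 * ((x.2.2.2 - y.2.2.2) * (x.2.2.2 - y.2.2.2)) - 78400)
    (2 * ((x.1 - y.1) * (x.2.1 - y.2.1) + (x.2.2.1 - y.2.2.1) * (x.2.2.2 - y.2.2.2)))

theorem sep_sound (x y : ℤ × ℤ × ℤ × ℤ) (h : sep x y = true) : 2 ≤ dist (pt x) (pt y) := by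
  have h1 := nn_sound _ _ h
  have h3 : √3 * √3 = 3 := Real.mul_self_sqrt (by norm_num)
  push_cast at h1
  rw [dist_eq_norm]
  apply le_of_sq_le_sq _ (norm_nonneg _)
  rw [← Complex.normSq_eq_norm_sq, Complex.normSq_apply]
  simp only [pt, Complex.sub_re, Complex.sub_im]
  have h4 : ((x.1 + x.2.1 * √3) / 140 - (y.1 + y.2.1 * √3) / 140 : ℝ) *
      ((x.1 + x.2.1 * √3) / 140 - (y.1 + y.2.1 * √3) / 140) +
      ((x.2.2.1 + x.2.2.2 * √3) / 140 - (y.2.2.1 + y.2.2.2 * √3) / 140) *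
      ((x.2.2.1 + x.2.2.2 * √3) / 140 - (y.2.2.1 + y.2.2.2 * √3) / 140) =
      (((x.1 - y.1) * (x.1 - y.1) + (√3 * √3) * ((x.2.1 - y.2.1) * (x.2.1 - y.2.1)) +
      (x.2.2.1 - y.2.2.1) * (x.2.2.1 - y.2.2.1) +
      (√3 * √3) * ((x.2.2.2 - y.2.2.2) * (x.2.2.2 - y.2.2.2)) - 78400) +
    (2 * ((x.1 - y.1) * (x.2.1 - y.2.1) + (x.2.2.1 - y.2.2.1) * (x.2.2.2 - y.2.2.2))) * √3) / 19600
     + 4 := by ring
  rw [h4, h3]
  linarith

theorem L_sep : L.Pairwise (fun x y => sep x y = true) := by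
  unfold L
  decide +kernel

theorem X_sep : Pairwise fun j k => (2 : ℝ) ≤ dist (X j) (X k) := by
  have h := List.pairwise_iff_get.mp L_sep
  intro j k hjk
  rcases lt_or_gt_of_ne hjk with h1 | h1
  · exact sep_sound _ _ (h (j.cast L_len.symm) (k.cast L_len.symm) h1)
  · rw [dist_comm]
    exact sep_sound _ _ (h (k.cast L_len.symm) (j.cast L_len.symm) h1)

/-- norm test -/
def nrm (x : ℤ × ℤ × ℤ × ℤ) : Bool :=
  nn (64 * 19600 - (x.1 * x.1 + 3 * (x.2.1 * x.2.1) + x.2.2.1 * x.2.2.1 +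
      3 * (x.2.2.2 * x.2.2.2))) (- (2 * (x.1 * x.2.1 + x.2.2.1 * x.2.2.2)))

theorem nrm_sound (x : ℤ × ℤ × ℤ × ℤ) (h : nrm x = true) : ‖pt x‖ ≤ 8 := by
  have h1 := nn_sound _ _ h
  have h3 : √3 * √3 = 3 := Real.mul_self_sqrt (by norm_num)
  push_cast at h1
  apply le_of_sq_le_sq _ (by norm_num)
  rw [← Complex.normSq_eq_norm_sq, Complex.normSq_apply]
  simp only [pt]
  have h4 : ((x.1 + x.2.1 * √3) / 140 : ℝ) * ((x.1 + x.2.1 * √3) / 140) +
      ((x.2.2.1 + x.2.2.2 * √3) / 140) * ((x.2.2.1 + x.2.2.2 * √3) / 140) =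
      64 - ((64 * 19600 - (x.1 * x.1 + (√3 * √3) * (x.2.1 * x.2.1) + x.2.2.1 * x.2.2.1 +
      (√3 * √3) * (x.2.2.2 * x.2.2.2))) + (- (2 * (x.1 * x.2.1 + x.2.2.1 * x.2.2.2))) * √3) / 19600 := by
    ring
  rw [h4, h3]
  linarith

theorem L_nrm : ∀ x ∈ L, nrm x = true := by
  unfold L
  decide +kernel

theorem X_norm (i : Fin 54) : ‖X i‖ ≤ 8 :=
  nrm_sound _ (L_nrm _ (List.get_mem _ _))

/-- test at an arc end point -/
def ok (v D : ℤ × ℤ × ℤ × ℤ) : Bool := L.all fun x =>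
  nn ((v.1 - x.1) * D.1 + 3 * ((v.2.1 - x.2.1) * D.2.1) + (v.2.2.1 - x.2.2.1) * D.2.2.1 +
      3 * ((v.2.2.2 - x.2.2.2) * D.2.2.2))
    ((v.1 - x.1) * D.2.1 + (v.2.1 - x.2.1) * D.1 + (v.2.2.1 - x.2.2.1) * D.2.2.2 +
      (v.2.2.2 - x.2.2.2) * D.2.2.1)

theorem ok_sound (v D : ℤ × ℤ × ℤ × ℤ) (h : ok v D = true) (α m : ℝ) (hm : 0 < m)
    (hc : m * cos α = D.1 + D.2.1 * √3) (hs : m * sin α = D.2.2.1 + D.2.2.2 * √3) (i : Fin 54) :
    dir (X i) α ≤ dir (pt v) α := by
  have h1 := nn_sound _ _ (List.all_eq_true.mp h _ (List.get_mem L (i.cast L_len.symm)))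
  have h3 : √3 * √3 = 3 := Real.mul_self_sqrt (by norm_num)
  push_cast at h1
  unfold X
  generalize L.get (i.cast L_len.symm) = x at h1 ⊢
  have h2 : m * (140 * (dir (pt v) α - dir (pt x) α)) =
     ((v.1 - x.1) * D.1 + (√3 * √3) * ((v.2.1 - x.2.1) * D.2.1) + (v.2.2.1 - x.2.2.1) * D.2.2.1 +
      (√3 * √3) * ((v.2.2.2 - x.2.2.2) * D.2.2.2)) +
    ((v.1 - x.1) * D.2.1 + (v.2.1 - x.2.1) * D.1 + (v.2.2.1 - x.2.2.1) * D.2.2.2 +
      (v.2.2.2 - x.2.2.2) * D.2.2.1) * √3 := by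
    have : m * (140 * (dir (pt v) α - dir (pt x) α)) =
      ((v.1 + v.2.1 * √3) - (x.1 + x.2.1 * √3)) * (m * cos α) +
      ((v.2.2.1 + v.2.2.2 * √3) - (x.2.2.1 + x.2.2.2 * √3)) * (m * sin α) := by
      simp only [dir, pt]; ring
    rw [this, hc, hs]; ring
  rw [h3] at h2
  rw [← h2] at h1
  have h5 := nonneg_of_mul_nonneg_right h1 hm
  linarith

theorem arc_le (v : ℂ) (α β : ℝ) (h0 : α < β) (h1 : β - α < π)
    (hα : ∀ i, dir (X i) α ≤ dir v α) (hβ : ∀ i, dir (X i) β ≤ dir v β) (θ : ℝ)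
    (hθ : θ ∈ Icc α β) : hs X θ ≤ dir v θ := by
  obtain ⟨i, hi⟩ := hs_ex X θ
  rw [hi]
  have hs0 : 0 < sin (β - α) := sin_pos_of_pos_of_lt_pi (by linarith) h1
  have hs1 : 0 ≤ sin (β - θ) := sin_nonneg_of_nonneg_of_le_pi (by linarith [hθ.2]) (by linarith [hθ.1])
  have hs2 : 0 ≤ sin (θ - α) := sin_nonneg_of_nonneg_of_le_pi (by linarith [hθ.1]) (by linarith [hθ.2])
  have key : ∀ w : ℂ, dir w θ * sin (β - α) = dir w α * sin (β - θ) + dir w β * sin (θ - α) := by
    intro w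
    unfold dir
    rw [sin_sub, sin_sub, sin_sub]
    have e1 := sin_sq_add_cos_sq α
    have e2 := sin_sq_add_cos_sq β
    ring_nf
  have h2 : (dir v θ - dir (X i) θ) * sin (β - α) ≥ 0 := by
    have a1 := key v
    have a2 := key (X i)
    have a3 := mul_nonneg (sub_nonneg.mpr (hα i)) hs1
    have a4 := mul_nonneg (sub_nonneg.mpr (hβ i)) hs2
    nlinarith
  have h3 := nonneg_of_mul_nonneg_left h2 hs0
  linarith

theorem arc_int (v : ℂ) (α β : ℝ) (h0 : α < β) (h1 : β - α < π)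
    (hα : ∀ i, dir (X i) α ≤ dir v α) (hβ : ∀ i, dir (X i) β ≤ dir v β) :
    ∫ θ in α..β, hs X θ ≤ v.re * (sin β - sin α) + v.im * (cos α - cos β) := by
  have h2 : ∫ θ in α..β, hs X θ ≤ ∫ θ in α..β, dir v θ := by
    apply intervalIntegral.integral_mono_on h0.le
    · exact (hs_cont X).intervalIntegrable _ _
    · exact (dir_cont v).intervalIntegrable _ _
    · exact arc_le v α β h0 h1 hα hβ
  refine h2.trans (le_of_eq ?_)
  unfold dir
  rw [intervalIntegral.integral_add, intervalIntegral.integral_const_mul,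
    intervalIntegral.integral_const_mul, integral_cos, integral_sin]
  · exact Continuous.intervalIntegrable (by fun_prop) _ _
  · exact Continuous.intervalIntegrable (by fun_prop) _ _

theorem cos_2pi3 : cos (2 * π / 3) = -1 / 2 := by
  have h : 2 * π / 3 = π - π / 3 := by ring
  rw [h, cos_pi_sub, cos_pi_div_three]; norm_num

theorem sin_2pi3 : sin (2 * π / 3) = √3 / 2 := by
  have h : 2 * π / 3 = π - π / 3 := by ring
  rw [h, sin_pi_sub, sin_pi_div_three]

theorem cos_5pi6 : cos (5 * π / 6) = - √3 / 2 := by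
  have h : 5 * π / 6 = π - π / 6 := by ring
  rw [h, cos_pi_sub, cos_pi_div_six]; ring

theorem sin_5pi6 : sin (5 * π / 6) = 1 / 2 := by
  have h : 5 * π / 6 = π - π / 6 := by ring
  rw [h, sin_pi_sub, sin_pi_div_six]

noncomputable def φ : ℝ := arccos (-140 / 149)

theorem cos_φ : cos φ = -140 / 149 := by
  unfold φ; rw [cos_arccos] <;> norm_num

theorem sin_φ : sin φ = 51 / 149 := by
  unfold φ
  rw [sin_arccos]
  have : (1 - (-140 / 149) ^ 2 : ℝ) = (51 / 149) ^ 2 := by norm_num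
  rw [this, Real.sqrt_sq (by norm_num)]

theorem φ_lt : φ < π := by
  unfold φ
  rw [← arccos_neg_one]
  exact arccos_lt_arccos (by norm_num) (by norm_num) (by norm_num)

theorem lt_φ : 5 * π / 6 < φ := by
  have h1 : arccos (cos (5 * π / 6)) = 5 * π / 6 :=
    arccos_cos (by linarith [pi_pos]) (by linarith [pi_pos])
  rw [← h1, cos_5pi6]
  unfold φ
  have h3 : √3 < 1.8 := by
    rw [Real.sqrt_lt' (by norm_num)]; norm_num
  apply arccos_lt_arccos (by norm_num) _ (by linarith [Real.sqrt_nonneg 3])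
  linarith

section ends

theorem o1 : ok (980, 0, 0, 140) (1, 0, 0, 0) = true := by decide +kernel
theorem o2 : ok (980, 0, 0, 140) (0, 1, 1, 0) = true := by decide +kernel
theorem o3 : ok (700, 0, 0, 420) (0, 1, 1, 0) = true := by decide +kernel
theorem o4 : ok (700, 0, 0, 420) (1, 0, 0, 1) = true := by decide +kernel
theorem o5 : ok (280, 0, 0, 560) (1, 0, 0, 1) = true := by decide +kernel
theorem o6 : ok (280, 0, 0, 560) (0, 0, 1, 0) = true := by decide +kernel
theorem o7 : ok (-280, 0, 0, 560) (0, 0, 1, 0) = true := by decide +kernel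
theorem o8 : ok (-280, 0, 0, 560) (-1, 0, 0, 1) = true := by decide +kernel
theorem o9 : ok (-700, 0, 0, 420) (-1, 0, 0, 1) = true := by decide +kernel
theorem o10 : ok (-700, 0, 0, 420) (0, -1, 1, 0) = true := by decide +kernel
theorem o11 : ok (-840, 0, 0, 280) (0, -1, 1, 0) = true := by decide +kernel
theorem o12 : ok (-840, 0, 0, 280) (-140, 0, 51, 0) = true := by decide +kernel
theorem o13 : ok (-789, -102, 140, 0) (-140, 0, 51, 0) = true := by decide +kernel
theorem o14 : ok (-789, -102, 140, 0) (-1, 0, 0, 0) = true := by decide +kernel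

theorem n1 : ok (980, 0, 0, -140) (1, 0, 0, 0) = true := by decide +kernel
theorem n2 : ok (980, 0, 0, -140) (0, 1, -1, 0) = true := by decide +kernel
theorem n3 : ok (700, 0, 0, -420) (0, 1, -1, 0) = true := by decide +kernel
theorem n4 : ok (700, 0, 0, -420) (1, 0, 0, -1) = true := by decide +kernel
theorem n5 : ok (280, 0, 0, -560) (1, 0, 0, -1) = true := by decide +kernel
theorem n6 : ok (280, 0, 0, -560) (0, 0, -1, 0) = true := by decide +kernel
theorem n7 : ok (-280, 0, 0, -560) (0, 0, -1, 0) = true := by decide +kernel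
theorem n8 : ok (-280, 0, 0, -560) (-1, 0, 0, -1) = true := by decide +kernel
theorem n9 : ok (-700, 0, 0, -420) (-1, 0, 0, -1) = true := by decide +kernel
theorem n10 : ok (-700, 0, 0, -420) (0, -1, -1, 0) = true := by decide +kernel
theorem n11 : ok (-840, 0, 0, -280) (0, -1, -1, 0) = true := by decide +kernel
theorem n12 : ok (-840, 0, 0, -280) (-140, 0, -51, 0) = true := by decide +kernel
theorem n13 : ok (-789, -102, -140, 0) (-140, 0, -51, 0) = true := by decide +kernel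
theorem n14 : ok (-789, -102, -140, 0) (-1, 0, 0, 0) = true := by decide +kernel

end ends

theorem arcQ (v Dα Dβ : ℤ × ℤ × ℤ × ℤ) (α β m m' : ℝ) (h0 : α < β) (h1 : β - α < π)
    (hm : 0 < m) (hm' : 0 < m')
    (hcα : m * cos α = Dα.1 + Dα.2.1 * √3) (hsα : m * sin α = Dα.2.2.1 + Dα.2.2.2 * √3)
    (hcβ : m' * cos β = Dβ.1 + Dβ.2.1 * √3) (hsβ : m' * sin β = Dβ.2.2.1 + Dβ.2.2.2 * √3)
    (hα : ok v Dα = true) (hβ : ok v Dβ = true) :
    ∫ θ in α..β, hs X θ ≤ (v.1 + v.2.1 * √3) / 140 * (sin β - sin α) +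
      (v.2.2.1 + v.2.2.2 * √3) / 140 * (cos α - cos β) :=
  arc_int (pt v) α β h0 h1 (ok_sound v Dα hα α m hm hcα hsα) (ok_sound v Dβ hβ β m' hm' hcβ hsβ)

theorem upper : ∫ θ in (0)..π, hs X θ ≤ 22283 / 1000 := by
  have hp := pi_pos
  have hI : ∀ a b, IntervalIntegrable (hs X) volume a b := fun a b => (hs_cont X).intervalIntegrable _ _
  have hφ1 := φ_lt
  have hφ2 := lt_φ
  have a1 := arcQ (980, 0, 0, 140) (1, 0, 0, 0) (0, 1, 1, 0) 0 (π / 6) 1 2 (by linarith) (by linarith)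
    (by norm_num) (by norm_num) (by simp) (by simp) (by rw [cos_pi_div_six]; push_cast; ring)
    (by rw [sin_pi_div_six]; push_cast; ring) o1 o2
  have a2 := arcQ (700, 0, 0, 420) (0, 1, 1, 0) (1, 0, 0, 1) (π / 6) (π / 3) 2 2 (by linarith) (by linarith)
    (by norm_num) (by norm_num) (by rw [cos_pi_div_six]; push_cast; ring)
    (by rw [sin_pi_div_six]; push_cast; ring) (by rw [cos_pi_div_three]; push_cast; ring)
    (by rw [sin_pi_div_three]; push_cast; ring) o3 o4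
  have a3 := arcQ (280, 0, 0, 560) (1, 0, 0, 1) (0, 0, 1, 0) (π / 3) (π / 2) 2 1 (by linarith) (by linarith)
    (by norm_num) (by norm_num) (by rw [cos_pi_div_three]; push_cast; ring)
    (by rw [sin_pi_div_three]; push_cast; ring) (by simp) (by simp) o5 o6
  have a4 := arcQ (-280, 0, 0, 560) (0, 0, 1, 0) (-1, 0, 0, 1) (π / 2) (2 * π / 3) 1 2 (by linarith) (by linarith)
    (by norm_num) (by norm_num) (by simp) (by simp) (by rw [cos_2pi3]; push_cast; ring)
    (by rw [sin_2pi3]; push_cast; ring) o7 o8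
  have a5 := arcQ (-700, 0, 0, 420) (-1, 0, 0, 1) (0, -1, 1, 0) (2 * π / 3) (5 * π / 6) 2 2 (by linarith) (by linarith)
    (by norm_num) (by norm_num) (by rw [cos_2pi3]; push_cast; ring)
    (by rw [sin_2pi3]; push_cast; ring) (by rw [cos_5pi6]; push_cast; ring)
    (by rw [sin_5pi6]; push_cast; ring) o9 o10
  have a6 := arcQ (-840, 0, 0, 280) (0, -1, 1, 0) (-140, 0, 51, 0) (5 * π / 6) φ 2 149 hφ2 (by linarith)
    (by norm_num) (by norm_num) (by rw [cos_5pi6]; push_cast; ring)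
    (by rw [sin_5pi6]; push_cast; ring) (by rw [cos_φ]; push_cast; ring)
    (by rw [sin_φ]; push_cast; ring) o11 o12
  have a7 := arcQ (-789, -102, 140, 0) (-140, 0, 51, 0) (-1, 0, 0, 0) φ π 149 1 hφ1 (by linarith)
    (by norm_num) (by norm_num) (by rw [cos_φ]; push_cast; ring)
    (by rw [sin_φ]; push_cast; ring) (by simp) (by simp) o13 o14
  rw [← intervalIntegral.integral_add_adjacent_intervals (hI 0 (π / 6)) (hI (π / 6) π),
    ← intervalIntegral.integral_add_adjacent_intervals (hI (π / 6) (π / 3)) (hI (π / 3) π),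
    ← intervalIntegral.integral_add_adjacent_intervals (hI (π / 3) (π / 2)) (hI (π / 2) π),
    ← intervalIntegral.integral_add_adjacent_intervals (hI (π / 2) (2 * π / 3)) (hI (2 * π / 3) π),
    ← intervalIntegral.integral_add_adjacent_intervals (hI (2 * π / 3) (5 * π / 6)) (hI (5 * π / 6) π),
    ← intervalIntegral.integral_add_adjacent_intervals (hI (5 * π / 6) φ) (hI φ π)]
  have h3 : √3 * √3 = 3 := Real.mul_self_sqrt (by norm_num)
  have h3' : √3 ≤ 17320509 / 10000000 := by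
    apply Real.sqrt_le_iff.mpr; norm_num
  simp only [cos_zero, sin_zero, cos_pi_div_six, sin_pi_div_six, cos_pi_div_three, sin_pi_div_three,
    cos_pi_div_two, sin_pi_div_two, cos_2pi3, sin_2pi3, cos_5pi6, sin_5pi6, cos_φ, sin_φ, cos_pi,
    sin_pi] at a1 a2 a3 a4 a5 a6 a7
  have b1 := a1.trans (show _ ≤ 2 + √3 by push_cast; nlinarith)
  have b2 := a2.trans (show _ ≤ 2 + √3 by push_cast; nlinarith)
  have b3 := a3.trans (show _ ≤ 2 + √3 by push_cast; nlinarith)
  have b4 := a4.trans (show _ ≤ 2 + √3 by push_cast; nlinarith)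
  have b5 := a5.trans (show _ ≤ 2 + √3 by push_cast; nlinarith)
  have b6 := a6.trans (show _ ≤ 141 / 149 - 3 + 280 / 149 * √3 by push_cast; nlinarith)
  have b7 := a7.trans (show _ ≤ 41499 / 20860 + 2601 / 10430 * √3 by push_cast; nlinarith)
  linarith

theorem lower : ∫ θ in (-π)..0, hs X θ ≤ 22283 / 1000 := by
  have hp := pi_pos
  have hI : ∀ a b, IntervalIntegrable (hs X) volume a b := fun a b => (hs_cont X).intervalIntegrable _ _
  have hφ1 := φ_lt
  have hφ2 := lt_φ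
  have a1 := arcQ (980, 0, 0, -140) (0, 1, -1, 0) (1, 0, 0, 0) (-(π / 6)) 0 2 1 (by linarith) (by linarith)
    (by norm_num) (by norm_num) (by rw [cos_neg, cos_pi_div_six]; push_cast; ring)
    (by rw [sin_neg, sin_pi_div_six]; push_cast; ring) (by simp) (by simp) n2 n1
  have a2 := arcQ (700, 0, 0, -420) (1, 0, 0, -1) (0, 1, -1, 0) (-(π / 3)) (-(π / 6)) 2 2 (by linarith) (by linarith)
    (by norm_num) (by norm_num) (by rw [cos_neg, cos_pi_div_three]; push_cast; ring)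
    (by rw [sin_neg, sin_pi_div_three]; push_cast; ring) (by rw [cos_neg, cos_pi_div_six]; push_cast; ring)
    (by rw [sin_neg, sin_pi_div_six]; push_cast; ring) n4 n3
  have a3 := arcQ (280, 0, 0, -560) (0, 0, -1, 0) (1, 0, 0, -1) (-(π / 2)) (-(π / 3)) 1 2 (by linarith) (by linarith)
    (by norm_num) (by norm_num) (by rw [cos_neg]; simp) (by rw [sin_neg]; simp)
    (by rw [cos_neg, cos_pi_div_three]; push_cast; ring)
    (by rw [sin_neg, sin_pi_div_three]; push_cast; ring) n6 n5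
  have a4 := arcQ (-280, 0, 0, -560) (-1, 0, 0, -1) (0, 0, -1, 0) (-(2 * π / 3)) (-(π / 2)) 2 1 (by linarith) (by linarith)
    (by norm_num) (by norm_num) (by rw [cos_neg, cos_2pi3]; push_cast; ring)
    (by rw [sin_neg, sin_2pi3]; push_cast; ring) (by rw [cos_neg]; simp) (by rw [sin_neg]; simp) n8 n7
  have a5 := arcQ (-700, 0, 0, -420) (0, -1, -1, 0) (-1, 0, 0, -1) (-(5 * π / 6)) (-(2 * π / 3)) 2 2 (by linarith) (by linarith)
    (by norm_num) (by norm_num) (by rw [cos_neg, cos_5pi6]; push_cast; ring)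
    (by rw [sin_neg, sin_5pi6]; push_cast; ring) (by rw [cos_neg, cos_2pi3]; push_cast; ring)
    (by rw [sin_neg, sin_2pi3]; push_cast; ring) n10 n9
  have a6 := arcQ (-840, 0, 0, -280) (-140, 0, -51, 0) (0, -1, -1, 0) (-φ) (-(5 * π / 6)) 149 2 (by linarith) (by linarith)
    (by norm_num) (by norm_num) (by rw [cos_neg, cos_φ]; push_cast; ring)
    (by rw [sin_neg, sin_φ]; push_cast; ring) (by rw [cos_neg, cos_5pi6]; push_cast; ring)
    (by rw [sin_neg, sin_5pi6]; push_cast; ring) n12 n11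
  have a7 := arcQ (-789, -102, -140, 0) (-1, 0, 0, 0) (-140, 0, -51, 0) (-π) (-φ) 1 149 (by linarith) (by linarith)
    (by norm_num) (by norm_num) (by simp) (by simp) (by rw [cos_neg, cos_φ]; push_cast; ring)
    (by rw [sin_neg, sin_φ]; push_cast; ring) n14 n13
  rw [← intervalIntegral.integral_add_adjacent_intervals (hI (-π) (-φ)) (hI (-φ) 0),
    ← intervalIntegral.integral_add_adjacent_intervals (hI (-φ) (-(5 * π / 6))) (hI (-(5 * π / 6)) 0),
    ← intervalIntegral.integral_add_adjacent_intervals (hI (-(5 * π / 6)) (-(2 * π / 3))) (hI (-(2 * π / 3)) 0),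
    ← intervalIntegral.integral_add_adjacent_intervals (hI (-(2 * π / 3)) (-(π / 2))) (hI (-(π / 2)) 0),
    ← intervalIntegral.integral_add_adjacent_intervals (hI (-(π / 2)) (-(π / 3))) (hI (-(π / 3)) 0),
    ← intervalIntegral.integral_add_adjacent_intervals (hI (-(π / 3)) (-(π / 6))) (hI (-(π / 6)) 0)]
  have h3 : √3 * √3 = 3 := Real.mul_self_sqrt (by norm_num)
  have h3' : √3 ≤ 17320509 / 10000000 := by
    apply Real.sqrt_le_iff.mpr; norm_num
  simp only [cos_neg, sin_neg, cos_zero, sin_zero, cos_pi_div_six, sin_pi_div_six, cos_pi_div_three,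
    sin_pi_div_three, cos_pi_div_two, sin_pi_div_two, cos_2pi3, sin_2pi3, cos_5pi6, sin_5pi6, cos_φ,
    sin_φ, cos_pi, sin_pi] at a1 a2 a3 a4 a5 a6 a7
  have b1 := a1.trans (show _ ≤ 2 + √3 by push_cast; nlinarith)
  have b2 := a2.trans (show _ ≤ 2 + √3 by push_cast; nlinarith)
  have b3 := a3.trans (show _ ≤ 2 + √3 by push_cast; nlinarith)
  have b4 := a4.trans (show _ ≤ 2 + √3 by push_cast; nlinarith)
  have b5 := a5.trans (show _ ≤ 2 + √3 by push_cast; nlinarith)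
  have b6 := a6.trans (show _ ≤ 141 / 149 - 3 + 280 / 149 * √3 by push_cast; nlinarith)
  have b7 := a7.trans (show _ ≤ 41499 / 20860 + 2601 / 10430 * √3 by push_cast; nlinarith)
  linarith

theorem per_X : ∫ θ in (-π)..π, hs X θ ≤ 44566 / 1000 := by
  have hI : ∀ a b, IntervalIntegrable (hs X) volume a b := fun a b => (hs_cont X).intervalIntegrable _ _
  rw [← intervalIntegral.integral_add_adjacent_intervals (hI (-π) 0) (hI 0 π)]
  linarith [upper, lower]

/-- final bound for the area of the non-lattice configuration -/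
theorem V_X (r : ℝ) (hr : 8 ≤ r) :
    V X r ≤ ENNReal.ofReal (π * r ^ 2 + r * (44566 / 1000) + π * 64) := by
  refine (V_upper X 8 r X_norm hr).trans (ENNReal.ofReal_le_ofReal ?_)
  have := mul_le_mul_of_nonneg_left per_X (show (0:ℝ) ≤ r by linarith)
  norm_num at this ⊢
  linarith

end Pool.Agent.Helper979.Xconf
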