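import Mathlib
import Pool.Agent.Helper979.Xconf

set_option autoImplicit false

namespace Pool.Agent.Helper979.Exist

open Real MeasureTheory Set Metric
open Pool.Agent.Helper979.Area Pool.Agent.Helper979.Xconf

/-- two disks: moving them apart increases the area of the union -/
theorem two_mono (t : ℂ) (s r : ℝ) (hs0 : 0 < s) (hs1 : s ≤ 1) :
    volume (closedBall (0:ℂ) r ∪ closedBall ((s:ℂ) * t) r) ≤
      volume (closedBall (0:ℂ) r ∪ closedBall t r) := by
  have e1 : ∀ w : ℂ, volume (closedBall (0:ℂ) r ∪ closedBall w r) =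
      volume (closedBall (0:ℂ) r) + volume (closedBall w r \ closedBall (0:ℂ) r) := by
    intro w
    rw [← union_sdiff_self, measure_union disjoint_sdiff_right]
    exact (isClosed_closedBall.measurableSet.diff isClosed_closedBall.measurableSet)
  rw [e1, e1]
  gcongr 1
  set d : ℂ := t - (s:ℂ) * t with hd
  have hsub : closedBall ((s:ℂ) * t) r \ closedBall (0:ℂ) r ⊆
      (fun z => z + d) ⁻¹' (closedBall t r \ closedBall (0:ℂ) r) := by
    intro y hy
    obtain ⟨h1, h2⟩ := hy
    rw [mem_closedBall, dist_eq_norm] at h1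
    rw [mem_closedBall, dist_zero_right, not_le] at h2
    refine ⟨?_, ?_⟩
    · rw [mem_closedBall, dist_eq_norm]
      have : y + d - t = y - (s:ℂ) * t := by rw [hd]; ring
      rw [this]; exact h1
    · rw [mem_closedBall, dist_zero_right, not_le]
      refine lt_of_lt_of_le h2 ?_
      apply le_of_sq_le_sq _ (norm_nonneg _)
      have h3 : ‖y - (s:ℂ) * t‖ ^ 2 ≤ ‖y‖ ^ 2 := by
        have := norm_nonneg (y - (s:ℂ) * t)
        nlinarith
      rw [← Complex.normSq_eq_norm_sq, ← Complex.normSq_eq_norm_sq, Complex.normSq_apply,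
        Complex.normSq_apply] at h3
      rw [← Complex.normSq_eq_norm_sq, ← Complex.normSq_eq_norm_sq, Complex.normSq_apply,
        Complex.normSq_apply]
      simp only [Complex.sub_re, Complex.sub_im, Complex.mul_re, Complex.mul_im, Complex.ofReal_re,
        Complex.ofReal_im, zero_mul, sub_zero, add_zero, Complex.add_re, Complex.add_im, hd] at h3 ⊢
      have h4 : 0 ≤ s * (y.re * t.re + y.im * t.im) := by
        nlinarith [mul_self_nonneg (s * t.re), mul_self_nonneg (s * t.im)]
      have h5 : 0 ≤ y.re * t.re + y.im * t.im := nonneg_of_mul_nonneg_right h4 hs0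
      nlinarith [mul_nonneg (sub_nonneg.mpr hs1) h5, mul_self_nonneg ((1 - s) * t.re),
        mul_self_nonneg ((1 - s) * t.im)]
  refine (measure_mono hsub).trans ?_
  rw [measure_preimage_add_right]

theorem V_pair (a b : ℂ) (r : ℝ) : V ![a, b] r = volume (closedBall a r ∪ closedBall b r) := by
  unfold V
  congr 1
  ext z
  simp [mem_iUnion, Fin.exists_fin_two]

theorem int_sq_dir (z : ℂ) : ∫ θ in (-π)..π, (dir z θ) ^ 2 = π * ‖z‖ ^ 2 := by
  have h : ∀ θ, (dir z θ) ^ 2 = z.re ^ 2 * cos θ ^ 2 + z.im ^ 2 * sin θ ^ 2 +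
      z.re * z.im * sin (2 * θ) := by
    intro θ; unfold dir; rw [sin_two_mul]; ring
  simp_rw [h]
  rw [intervalIntegral.integral_add, intervalIntegral.integral_add,
    intervalIntegral.integral_const_mul, intervalIntegral.integral_const_mul,
    intervalIntegral.integral_const_mul, integral_cos_sq, integral_sin_sq]
  · have h2 : ∫ θ in (-π)..π, sin (2 * θ) = 0 := by
      rw [intervalIntegral.integral_comp_mul_left (fun x => sin x) (by norm_num), integral_sin]
      simp
    rw [h2, ← Complex.normSq_eq_norm_sq, Complex.normSq_apply]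
    simp
    ring
  all_goals exact Continuous.intervalIntegrable (by fun_prop) _ _

theorem int_dir (z : ℂ) : ∫ θ in (-π)..π, (dir z θ) = 0 := by
  unfold dir
  rw [intervalIntegral.integral_add, intervalIntegral.integral_const_mul,
    intervalIntegral.integral_const_mul, integral_cos, integral_sin]
  · simp
  all_goals exact Continuous.intervalIntegrable (by fun_prop) _ _

theorem far_int (t : ℂ) (ht : ‖t‖ = 100) : 50 * π ≤ ∫ θ in (-π)..π, hs ![0, t] θ := by
  have h1 : ∫ θ in (-π)..π, (1 / 2 * dir t θ + 1 / 200 * (dir t θ) ^ 2) ≤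
      ∫ θ in (-π)..π, hs ![0, t] θ := by
    have hc := dir_cont t
    apply intervalIntegral.integral_mono_on (by linarith [pi_pos])
    · exact Continuous.intervalIntegrable (by fun_prop) _ _
    · exact (hs_cont _).intervalIntegrable _ _
    · intro θ _
      have a0 := dir_le ![0, t] θ 0
      have a1 := dir_le ![0, t] θ 1
      simp only [Matrix.cons_val_zero, Matrix.cons_val_one] at a0 a1
      have a2 : dir 0 θ = 0 := by simp [dir]
      rw [a2] at a0
      have a3 := abs_le.mp (abs_dir_le t θ)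
      rw [ht] at a3
      rcases le_total 0 (dir t θ) with h | h
      · nlinarith [a3.2]
      · nlinarith [a3.1]
  refine le_trans (le_of_eq ?_) h1
  have hc := dir_cont t
  rw [intervalIntegral.integral_add, intervalIntegral.integral_const_mul,
    intervalIntegral.integral_const_mul, int_dir, int_sq_dir, ht]
  · ring
  all_goals exact Continuous.intervalIntegrable (by fun_prop) _ _

/-- lower bound when two points are far apart -/
theorem far {ι : Type} [Fintype ι] [Nonempty ι] (x : ι → ℂ) (i j : ι) (κ r : ℝ) (h0 : x i = 0)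
    (hj : 100 < ‖x j‖) (hκ : κ ^ 2 + 100 ^ 2 ≤ r ^ 2) (hκ0 : 100 ≤ κ) (hr : 0 ≤ r) :
    ENNReal.ofReal (π * κ ^ 2 + κ * (50 * π)) ≤ V x r := by
  have hn : (0:ℝ) < ‖x j‖ := by linarith
  have h1 := two_mono (x j) (100 / ‖x j‖) r (by positivity) (by rw [div_le_one hn]; exact hj.le)
  set t : ℂ := ((100 / ‖x j‖ : ℝ) : ℂ) * x j with ht
  have hnt : ‖t‖ = 100 := by
    rw [ht, norm_mul, Complex.norm_real, Real.norm_eq_abs, abs_of_pos (by positivity)]
    field_simp
  have h2 : V ![0, t] r ≤ V x r := by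
    rw [V_pair]
    refine h1.trans (measure_mono ?_)
    intro z hz
    rw [mem_iUnion]
    rcases hz with hz | hz
    · exact ⟨i, by rw [h0]; exact hz⟩
    · exact ⟨j, hz⟩
  refine le_trans ?_ h2
  refine le_trans ?_ (V_lower ![0, t] 100 κ r ?_ hκ hκ0 hr)
  · apply ENNReal.ofReal_le_ofReal
    have := mul_le_mul_of_nonneg_left (far_int t hnt) (show 0 ≤ κ by linarith)
    linarith
  · intro k
    fin_cases k
    · simp
    · simp [hnt]

/-- open version -/
noncomputable def Vo {ι : Type} (x : ι → ℂ) (r : ℝ) : ENNReal := volume (⋃ i, ball (x i) r)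

theorem V_eq_Vo {ι : Type} [Fintype ι] (x : ι → ℂ) (r : ℝ) (hr : r ≠ 0) : V x r = Vo x r := by
  apply le_antisymm
  · have h1 : (⋃ i, closedBall (x i) r) ⊆ (⋃ i, ball (x i) r) ∪ ⋃ i, sphere (x i) r := by
      intro z hz
      rw [mem_iUnion] at hz
      obtain ⟨i, hi⟩ := hz
      rw [← ball_union_sphere] at hi
      rcases hi with hi | hi
      · exact Or.inl (mem_iUnion.mpr ⟨i, hi⟩)
      · exact Or.inr (mem_iUnion.mpr ⟨i, hi⟩)
    refine (measure_mono h1).trans ((measure_union_le _ _).trans ?_)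
    have h2 : volume (⋃ i, sphere (x i) r) = 0 := by
      apply measure_iUnion_null
      intro i
      exact Measure.addHaar_sphere_of_ne_zero _ _ hr
    rw [h2, add_zero]
    exact le_rfl
  · exact measure_mono (iUnion_mono fun i => ball_subset_closedBall)

theorem Vo_lsc {ι : Type} [Fintype ι] (r : ℝ) :
    LowerSemicontinuous (fun x : ι → ℂ => Vo x r) := by
  intro x y hy
  -- continuity from below
  have hmono : Monotone (fun n : ℕ => ⋃ i, ball (x i) (r - 1 / ((n : ℝ) + 1))) := by
    intro m n hmn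
    apply iUnion_mono
    intro i
    apply ball_subset_ball
    have : (1:ℝ) / ((n : ℝ) + 1) ≤ 1 / ((m : ℝ) + 1) := by
      apply one_div_le_one_div_of_le (by positivity)
      have : (m : ℝ) ≤ n := by exact_mod_cast hmn
      linarith
    linarith
  have hU : (⋃ n : ℕ, ⋃ i, ball (x i) (r - 1 / ((n : ℝ) + 1))) = ⋃ i, ball (x i) r := by
    ext z
    simp only [mem_iUnion, mem_ball]
    constructor
    · rintro ⟨n, i, h⟩
      refine ⟨i, h.trans ?_⟩
      have : (0:ℝ) < 1 / ((n : ℝ) + 1) := by positivity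
      linarith
    · rintro ⟨i, h⟩
      obtain ⟨n, hn⟩ := exists_nat_one_div_lt (sub_pos.mpr h)
      exact ⟨n, i, by linarith⟩
  have ht := tendsto_measure_iUnion_atTop (μ := (volume : Measure ℂ)) hmono
  rw [hU] at ht
  have hev := ht.eventually (lt_mem_nhds hy)
  obtain ⟨n, hn⟩ := hev.exists
  have hb : ∀ᶠ x' in nhds x, dist x' x < 1 / ((n : ℝ) + 1) := by
    apply Metric.eventually_nhds_iff.mpr
    exact ⟨1 / ((n : ℝ) + 1), by positivity, fun _ h => h⟩
  filter_upwards [hb] with x' hx'
  refine lt_of_lt_of_le hn ?_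
  apply measure_mono
  apply iUnion_mono
  intro i
  apply ball_subset_ball'
  have h1 : dist (x i) (x' i) ≤ dist x' x := by
    rw [dist_comm]; exact dist_le_pi_dist x' x i
  linarith

theorem V_trans {ι : Type} (x : ι → ℂ) (d : ℂ) (r : ℝ) : V (fun i => x i - d) r = V x r := by
  unfold V
  have : (⋃ i, closedBall (x i - d) r) = (fun z => z + d) ⁻¹' (⋃ i, closedBall (x i) r) := by
    ext z
    simp only [mem_iUnion, mem_closedBall, mem_preimage, dist_eq_norm]
    have : ∀ i, z - (x i - d) = z + d - x i := fun i => by ring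
    simp only [this]
  rw [this, measure_preimage_add_right]

theorem bound_far (r : ℝ) (hr : r = 10 ^ 7) :
    π * r ^ 2 + r * (44566 / 1000) + π * 64 <
      π * (r - 1 / 1000) ^ 2 + (r - 1 / 1000) * (50 * π) := by
  have h1 := pi_gt_three
  have h2 := pi_lt_four
  subst hr
  nlinarith

theorem bound_lat (r : ℝ) (hr : r = 10 ^ 7) :
    π * r ^ 2 + r * (44566 / 1000) + π * 64 <
      π * (r - 1 / 1000) ^ 2 + (r - 1 / 1000) * (4459 / 100) := by
  have h1 := pi_gt_three
  have h2 := pi_lt_four
  subst hr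
  nlinarith

/-- a minimiser exists and it is not far spread -/
theorem exists_min (r : ℝ) (hr : r = 10 ^ 7) : ∃ c : Fin 54 → ℂ, c 0 = 0 ∧ (∀ i, ‖c i‖ ≤ 100) ∧
    (Pairwise fun j k => (2 : ℝ) ≤ dist (c j) (c k)) ∧
    (∀ x : Fin 54 → ℂ, (Pairwise fun j k => (2 : ℝ) ≤ dist (x j) (x k)) → V c r ≤ V x r) := by
  have hr0 : r ≠ 0 := by rw [hr]; norm_num
  set K : Set (Fin 54 → ℂ) := {c | c 0 = 0 ∧ (∀ i, ‖c i‖ ≤ 100) ∧
    (∀ j k, j ≠ k → (2 : ℝ) ≤ dist (c j) (c k))} with hK
  have hclosed : IsClosed K := by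
    have h1 : K = {c | c 0 = 0} ∩ ((⋂ i, {c | ‖c i‖ ≤ 100}) ∩
        ⋂ j, ⋂ k, ⋂ (_ : j ≠ k), {c | (2 : ℝ) ≤ dist (c j) (c k)}) := by
      ext c; simp [hK]
    rw [h1]
    apply IsClosed.inter
    · exact isClosed_eq (continuous_apply 0) continuous_const
    · apply IsClosed.inter
      · exact isClosed_iInter fun i => isClosed_le (continuous_apply i).norm continuous_const
      · exact isClosed_iInter fun j => isClosed_iInter fun k => isClosed_iInter fun _ =>
          isClosed_le continuous_const ((continuous_apply j).dist (continuous_apply k))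
  have hbdd : K ⊆ closedBall 0 100 := by
    intro c hc
    rw [mem_closedBall, dist_zero_right, pi_norm_le_iff_of_nonneg (by norm_num)]
    exact hc.2.1
  have hcomp : IsCompact K := (isCompact_closedBall (0 : Fin 54 → ℂ) 100).of_isClosed_subset hclosed hbdd
  have hsep : ∀ x : Fin 54 → ℂ, ∀ d : ℂ, (Pairwise fun j k => (2 : ℝ) ≤ dist (x j) (x k)) →
      ∀ j k, j ≠ k → (2 : ℝ) ≤ dist (x j - d) (x k - d) := by
    intro x d h j k hjk
    rw [dist_sub_right]; exact h hjk
  have hXK : (fun i => X i - X 0) ∈ K := by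
    refine ⟨sub_self _, fun i => ?_, hsep X (X 0) X_sep⟩
    have := norm_sub_le (X i) (X 0)
    have := X_norm i
    have := X_norm 0
    linarith
  obtain ⟨c, hcK, hcmin⟩ := LowerSemicontinuousOn.exists_isMinOn ⟨_, hXK⟩ hcomp
    ((Vo_lsc (ι := Fin 54) r).lowerSemicontinuousOn K)
  have hcX : V c r ≤ V X r := by
    rw [← V_trans X (X 0) r, V_eq_Vo _ _ hr0, V_eq_Vo _ _ hr0]
    exact hcmin hXK
  refine ⟨c, hcK.1, hcK.2.1, fun j k h => hcK.2.2 j k h, ?_⟩
  intro x hx
  rw [← V_trans x (x 0) r]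
  by_cases hfar : ∀ i, ‖x i - x 0‖ ≤ 100
  · rw [V_eq_Vo _ _ hr0, V_eq_Vo _ _ hr0]
    exact hcmin (show (fun i => x i - x 0) ∈ K from ⟨sub_self _, hfar, hsep x (x 0) hx⟩)
  · push Not at hfar
    obtain ⟨j, hj⟩ := hfar
    refine hcX.trans ?_
    refine (V_X r (by rw [hr]; norm_num)).trans ?_
    refine le_trans ?_ (far (fun i => x i - x 0) 0 j (r - 1 / 1000) r (sub_self _) hj ?_ ?_ ?_)
    · exact ENNReal.ofReal_le_ofReal (bound_far r hr).le
    · rw [hr]; norm_num
    · rw [hr]; norm_num
    · rw [hr]; norm_num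

end Pool.Agent.Helper979.Exist
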