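import Mathlib
import Pool.Agent.Helper979.Exist

set_option autoImplicit false

namespace Pool.Agent.Helper979.NoLat

open Real MeasureTheory Set Metric
open Pool.Agent.Helper979.Area Pool.Agent.Helper979.Xconf Pool.Agent.Helper979.Exist
open Pool.Agent.Helper979.HexLat (val per_lower)

/-- shape of two unit vectors at unit distance -/
theorem shape (U W : ℂ) (hU : ‖U‖ = 1) (hW : ‖W‖ = 1) (hUW : ‖U - W‖ = 1) :
    ∃ τ σ : ℝ, (σ = 1 ∨ σ = -1) ∧ (∀ θ, dir U (τ + σ * θ) = cos θ) ∧
      (∀ θ, dir W (τ + σ * θ) = cos (θ - π / 3)) := by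
  have h3 : √3 * √3 = 3 := Real.mul_self_sqrt (by norm_num)
  have hUn : U.re * U.re + U.im * U.im = 1 := by
    rw [← Complex.normSq_apply, Complex.normSq_eq_norm_sq, hU]; norm_num
  have hWn : W.re * W.re + W.im * W.im = 1 := by
    rw [← Complex.normSq_apply, Complex.normSq_eq_norm_sq, hW]; norm_num
  have hUWn : (U.re - W.re) * (U.re - W.re) + (U.im - W.im) * (U.im - W.im) = 1 := by
    rw [← Complex.sub_re, ← Complex.sub_im, ← Complex.normSq_apply, Complex.normSq_eq_norm_sq, hUW]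
    norm_num
  -- angle of U
  have hU0 : U ≠ 0 := by intro h; rw [h] at hU; simp at hU
  have hc : cos (Complex.arg U) = U.re := by rw [Complex.cos_arg hU0, hU]; simp
  have hs : sin (Complex.arg U) = U.im := by rw [Complex.sin_arg, hU]; simp
  -- inner and cross product
  have hin : U.re * W.re + U.im * W.im = 1 / 2 := by linarith
  have hcr : (U.re * W.im - U.im * W.re) * (U.re * W.im - U.im * W.re) = 3 / 4 := by
    have : (U.re * W.im - U.im * W.re) * (U.re * W.im - U.im * W.re) =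
      (U.re * U.re + U.im * U.im) * (W.re * W.re + W.im * W.im) -
      (U.re * W.re + U.im * W.im) * (U.re * W.re + U.im * W.im) := by ring
    rw [this, hUn, hWn, hin]; norm_num
  have hcr2 : ∃ σ : ℝ, (σ = 1 ∨ σ = -1) ∧ U.re * W.im - U.im * W.re = σ * (√3 / 2) := by
    have : (U.re * W.im - U.im * W.re - √3 / 2) * (U.re * W.im - U.im * W.re + √3 / 2) = 0 := by
      nlinarith
    rcases mul_eq_zero.mp this with h | h
    · exact ⟨1, Or.inl rfl, by linarith⟩
    · exact ⟨-1, Or.inr rfl, by linarith⟩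
  obtain ⟨σ, hσ, hcross⟩ := hcr2
  have hWre : W.re = U.re * (1 / 2) - U.im * (σ * (√3 / 2)) := by
    rw [← hin, ← hcross]
    linear_combination (-W.re) * hUn
  have hWim : W.im = U.im * (1 / 2) + U.re * (σ * (√3 / 2)) := by
    rw [← hin, ← hcross]
    linear_combination (-W.im) * hUn
  refine ⟨Complex.arg U, σ, hσ, ?_, ?_⟩
  · intro θ
    unfold dir
    rw [cos_add, sin_add, hc, hs]
    rcases hσ with rfl | rfl
    · rw [one_mul]
      linear_combination (cos θ) * hUn
    · rw [neg_one_mul, cos_neg, sin_neg]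
      linear_combination (cos θ) * hUn
  · intro θ
    unfold dir
    rw [cos_add, sin_add, hc, hs, cos_sub, cos_pi_div_three, sin_pi_div_three, hWre, hWim]
    rcases hσ with rfl | rfl
    · rw [one_mul, one_mul]
      linear_combination (1 / 2 * cos θ + √3 / 2 * sin θ) * hUn
    · rw [neg_one_mul, neg_one_mul, cos_neg, sin_neg]
      linear_combination (1 / 2 * cos θ + √3 / 2 * sin θ) * hUn

theorem int_shift (h : ℝ → ℝ) (hp : Function.Periodic h (2 * π)) (τ σ : ℝ)
    (hσ : σ = 1 ∨ σ = -1) :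
    ∫ θ in (-π)..π, h (τ + σ * θ) = ∫ θ in (-π)..π, h θ := by
  have key : ∀ t, ∫ θ in (-π)..π, h (t + θ) = ∫ θ in (-π)..π, h θ := by
    intro t
    rw [intervalIntegral.integral_comp_add_left h t]
    have h1 := hp.intervalIntegral_add_eq (t + -π) (-π)
    have e1 : t + -π + 2 * π = t + π := by ring
    have e2 : -π + 2 * π = π := by ring
    rw [e1, e2] at h1
    exact h1
  rcases hσ with rfl | rfl
  · simp only [one_mul]; exact key τ
  · simp only [neg_one_mul]
    have h1 : ∫ θ in (-π)..π, h (τ + -θ) = ∫ θ in (-π)..π, h (τ + θ) := by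
      have := intervalIntegral.integral_comp_neg (a := -π) (b := π) (fun x => h (τ + x))
      simpa using this
    rw [h1]; exact key τ

/-- a lattice configuration has long perimeter -/
theorem lattice_per (c : Fin 54 → ℂ) (hsep : Pairwise fun j k => (2 : ℝ) ≤ dist (c j) (c k))
    (h0 : c 0 = 0) (P U W : ℂ) (hU : ‖U‖ = 1) (hW : ‖W‖ = 1) (hUW : ‖U - W‖ = 1)
    (hlat : ∀ i, ∃ a b : ℤ, c i = P + ((2 : ℝ) * (a : ℝ)) • U + ((2 : ℝ) * (b : ℝ)) • W) :
    4459 / 100 ≤ ∫ θ in (-π)..π, hs c θ := by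
  obtain ⟨τ, σ, hσ, hdU, hdW⟩ := shape U W hU hW hUW
  choose a b hab using hlat
  set f : Fin 54 → ℤ × ℤ := fun i => (a i - a 0, b i - b 0) with hf
  have hci : ∀ i, c i = ((2 : ℝ) * ((f i).1 : ℝ)) • U + ((2 : ℝ) * ((f i).2 : ℝ)) • W := by
    intro i
    have h1 := hab i
    have h2 := hab 0
    rw [h0] at h2
    have h3 : c i = c i - 0 := by ring
    rw [h3, h1]
    simp only [hf, Complex.real_smul] at h2 ⊢
    push_cast at h2 ⊢
    linear_combination -h2
  have hinj : Function.Injective f := by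
    intro i j hij
    by_contra hne
    have h1 := hsep hne
    simp only at h1
    rw [hci i, hci j, hij, dist_self] at h1
    norm_num at h1
  have hcard : (Finset.univ.image f).card = 54 := by
    rw [Finset.card_image_of_injective _ hinj]; simp
  have hcc := hs_cont c
  have hpp := hs_per c
  have h1 := per_lower (T := Finset.univ.image f) (h := fun θ => hs c (τ + σ * θ)) hcard
    (by fun_prop) (by
      intro θ
      show hs c (τ + σ * (θ + 2 * π)) = hs c (τ + σ * θ)
      rcases hσ with rfl | rfl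
      · have : τ + 1 * (θ + 2 * π) = (τ + 1 * θ) + 2 * π := by ring
        rw [this, hpp]
      · have : τ + -1 * (θ + 2 * π) = (τ + -1 * θ) - 2 * π := by ring
        rw [this, hpp.sub_eq]) (by
      intro s hs' θ
      obtain ⟨i, _, hi⟩ := Finset.mem_image.mp hs'
      have h2 := dir_le c (τ + σ * θ) i
      refine le_trans (le_of_eq ?_) h2
      rw [hci i, ← hi]
      unfold val
      have h3 : ∀ x y : ℝ, dir (x • U + y • W) (τ + σ * θ) =
          x * dir U (τ + σ * θ) + y * dir W (τ + σ * θ) := by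
        intro x y
        unfold dir
        simp only [Complex.add_re, Complex.add_im, Complex.smul_re, Complex.smul_im, smul_eq_mul]
        ring
      rw [h3, hdU, hdW])
  rw [int_shift (hs c) hpp τ σ hσ] at h1
  exact h1

/-- there is a minimiser that is not in a hexagonal lattice -/
theorem no_lat : ∃ c : Fin 54 → ℂ, (Pairwise fun j k => (2 : ℝ) ≤ dist (c j) (c k)) ∧
    (∀ x : Fin 54 → ℂ, (Pairwise fun j k => (2 : ℝ) ≤ dist (x j) (x k)) →
      volume (⋃ i, closedBall (c i) (10 ^ 7)) ≤ volume (⋃ i, closedBall (x i) (10 ^ 7))) ∧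
    ¬ ∃ P U W : ℂ, ‖U‖ = 1 ∧ ‖W‖ = 1 ∧ ‖U - W‖ = 1 ∧
      ∀ i, ∃ a b : ℤ, c i = P + ((2 : ℝ) * (a : ℝ)) • U + ((2 : ℝ) * (b : ℝ)) • W := by
  obtain ⟨c, hc0, hc100, hsep, hmin⟩ := exists_min (10 ^ 7) rfl
  refine ⟨c, hsep, hmin, ?_⟩
  rintro ⟨P, U, W, hU, hW, hUW, hlat⟩
  have h1 := lattice_per c hsep hc0 P U W hU hW hUW hlat
  have h2 := V_lower c 100 (10 ^ 7 - 1 / 1000) (10 ^ 7) hc100 (by norm_num) (by norm_num) (by norm_num)
  have h3 := V_X (10 ^ 7) (by norm_num)
  have h4 := hmin X X_sep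
  have h5 : ENNReal.ofReal (π * (10 ^ 7) ^ 2 + 10 ^ 7 * (44566 / 1000) + π * 64) <
      ENNReal.ofReal (π * (10 ^ 7 - 1 / 1000) ^ 2 +
        (10 ^ 7 - 1 / 1000) * ∫ θ in (-π)..π, hs c θ) := by
    rw [ENNReal.ofReal_lt_ofReal_iff']
    have h6 := bound_lat (10 ^ 7) rfl
    have h7 : π * (10 ^ 7 - 1 / 1000) ^ 2 + (10 ^ 7 - 1 / 1000) * (4459 / 100) ≤
      π * (10 ^ 7 - 1 / 1000) ^ 2 + (10 ^ 7 - 1 / 1000) * ∫ θ in (-π)..π, hs c θ := by
      have := mul_le_mul_of_nonneg_left h1 (show (0:ℝ) ≤ 10 ^ 7 - 1 / 1000 by norm_num)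
      linarith
    have h8 := lt_of_lt_of_le h6 h7
    refine ⟨h8, lt_trans ?_ h8⟩
    positivity
  exact absurd (h2.trans (h4.trans h3)) (not_le.mpr h5)

end Pool.Agent.Helper979.NoLat
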